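import Mathlib
import Pool.Agent.H933R3.Stack

/-! Iterated stacking: the structure of the complexes in a vertex decomposition, and the main
induction. -/

set_option autoImplicit false

namespace Pool.Agent.Y279.St

open Finset
open Pool.Agent.H933R3 (IsCx IsFacet IsPure VertexDecomposable Sh Good mem_del' mem_link'
  exists_facet shed_pure Shellable sh_of_card_one)

variable {U : Type} [DecidableEq U]

/-- Vertex-decomposable complexes are strongly connected. -/
theorem strongly_connected {Γ : Finset (Finset U)} (h : VertexDecomposable Γ) :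
    ∀ (n : ℕ), (∀ σ ∈ Γ, ∃ τ ∈ Γ, σ ⊆ τ ∧ τ.card = n + 1) → (∀ σ ∈ Γ, σ.card ≤ n + 1) →
    ∀ P : Finset U → Prop, (∃ τ ∈ Γ, τ.card = n + 1 ∧ P τ) →
      (∀ τ ∈ Γ, ∀ τ' ∈ Γ, τ.card = n + 1 → τ'.card = n + 1 → P τ → (τ ∩ τ').card = n → P τ') →
      ∀ τ ∈ Γ, τ.card = n + 1 → P τ := by
  induction h with
  | simplex σ =>
    rintro n hp hm P ⟨τ, hτ, hc, hP⟩ - τ' hτ' hc'
    have hσ : σ.card ≤ n + 1 := hm σ (mem_powerset.2 (Subset.refl σ))
    have h1 : τ = σ := eq_of_subset_of_card_le (mem_powerset.1 hτ) (by omega)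
    have h2 : τ' = σ := eq_of_subset_of_card_le (mem_powerset.1 hτ') (by omega)
    rw [h2, ← h1]
    exact hP
  | shed Γ v hK hpure hv hl hd hs ihl ihd =>
    rintro n hp hm P ⟨τ₀, hτ₀, hc₀, hP₀⟩ hadj
    have hdp := shed_pure hK hp hm hv hd.pure hs
    have key : ∀ τ ∈ Γ, τ.card = n + 1 → v ∈ τ →
        ∃ τ' ∈ Pool.Agent.H933R3.del Γ v, τ'.card = n + 1 ∧ τ.erase v ⊆ τ' := by
      intro τ hτ hc hvτ
      have h1 : τ.erase v ∈ Pool.Agent.H933R3.del Γ v :=
        mem_del'.2 ⟨hK.2 _ hτ _ (erase_subset v τ), notMem_erase v τ⟩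
      obtain ⟨τ', h2, h3, h4⟩ := hdp _ h1
      exact ⟨τ', h2, h4, h3⟩
    have hinter : ∀ τ τ' : Finset U, τ.card = n + 1 → v ∈ τ → v ∉ τ' → τ.erase v ⊆ τ' →
        (τ ∩ τ').card = n := by
      intro τ τ' hc hvτ hvτ' hsub
      have h1 : τ ∩ τ' = τ.erase v := by
        ext u
        rw [mem_inter, mem_erase]
        constructor
        · rintro ⟨h1, h2⟩
          exact ⟨fun h => hvτ' (h ▸ h2), h1⟩
        · rintro ⟨h1, h2⟩
          exact ⟨h2, hsub (mem_erase.2 ⟨h1, h2⟩)⟩
      rw [h1, card_erase_of_mem hvτ, hc]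
      rfl
    have hdall : ∀ τ ∈ Pool.Agent.H933R3.del Γ v, τ.card = n + 1 → P τ := by
      refine ihd n hdp (fun σ hσ => hm σ (mem_del'.1 hσ).1) P ?_
        (fun τ hτ τ' hτ' => hadj τ (mem_del'.1 hτ).1 τ' (mem_del'.1 hτ').1)
      by_cases hvτ : v ∈ τ₀
      · obtain ⟨τ', h1, h2, h3⟩ := key τ₀ hτ₀ hc₀ hvτ
        exact ⟨τ', h1, h2, hadj τ₀ hτ₀ τ' (mem_del'.1 h1).1 hc₀ h2 hP₀
          (hinter _ _ hc₀ hvτ (mem_del'.1 h1).2 h3)⟩
      · exact ⟨τ₀, mem_del'.2 ⟨hτ₀, hvτ⟩, hc₀, hP₀⟩
    intro τ hτ hc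
    by_cases hvτ : v ∈ τ
    · obtain ⟨τ', h1, h2, h3⟩ := key τ hτ hc hvτ
      refine hadj τ' (mem_del'.1 h1).1 τ hτ h2 hc (hdall τ' h1 h2) ?_
      rw [inter_comm]
      exact hinter _ _ hc hvτ (mem_del'.1 h1).2 h3
    · exact hdall τ (mem_del'.2 ⟨hτ, hvτ⟩) hc

/-- The structure of the complexes occurring in a decomposition of an iterated stacking. Every new
vertex `x` has a carrier `car x`, a facet of the original complex, and `rdg x` is `car x` if `x` is
the first vertex put into `car x`, and a ridge of `car x` otherwise. -/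
structure IS (n : ℕ) (old : U → Prop) (car rdg : U → Finset U) (Γ : Finset (Finset U)) : Prop where
  cx : IsCx Γ
  pure : ∀ σ ∈ Γ, ∃ τ ∈ Γ, σ ⊆ τ ∧ τ.card = n + 1
  max : ∀ σ ∈ Γ, σ.card ≤ n + 1
  carc : ∀ x, {x} ∈ Γ → ¬ old x → (car x).card = n + 1
  caro : ∀ x, {x} ∈ Γ → ¬ old x → ∀ u ∈ car x, old u
  rsub : ∀ x, {x} ∈ Γ → ¬ old x → rdg x ⊆ car x
  rcard : ∀ x, {x} ∈ Γ → ¬ old x → rdg x ≠ car x → (rdg x).card = n
  form1 : ∀ σ ∈ Γ, ∀ x ∈ σ, ∀ y ∈ σ, ¬ old x → ¬ old y → car x = car y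
  form2 : ∀ σ ∈ Γ, ∀ x ∈ σ, ∀ u ∈ σ, ¬ old x → old u → u ∈ rdg x
  form3 : ∀ σ ∈ Γ, ∀ x ∈ σ, ∀ y ∈ σ, ¬ old x → ¬ old y → rdg x ≠ car x → rdg y ≠ car y →
    rdg x = rdg y
  form4 : ∀ σ ∈ Γ, ∀ x ∈ σ, ¬ old x → ¬ car x ⊆ σ
  full1 : ∀ x, {x} ∈ Γ → ¬ old x → rdg x = car x → ∀ A, A ⊂ car x → A.card < n →
    (∀ v ∈ A, {v} ∈ Γ) → insert x A ∈ Γ
  full2 : ∀ x, {x} ∈ Γ → ¬ old x → rdg x = car x → ∀ A, A ⊂ car x → (∀ v ∈ A, {v} ∈ Γ) → A ∈ Γ
  inj : ∀ x y, {x} ∈ Γ → {y} ∈ Γ → ¬ old x → ¬ old y → rdg x = car x → rdg y = car y →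
    car x = car y → x = y
  injF : ∀ x, {x} ∈ Γ → ¬ old x → car x ∉ Γ

/-- The complete simplices. -/
def Comp (n : ℕ) (old : U → Prop) (car rdg : U → Finset U) (Γ : Finset (Finset U))
    (F : Finset U) : Prop :=
  (F ∈ Γ ∧ F.card = n + 1 ∧ ∀ u ∈ F, old u) ∨
  (∃ x, {x} ∈ Γ ∧ ¬ old x ∧ rdg x = car x ∧ car x = F ∧ ∀ v ∈ F, {v} ∈ Γ)

variable {n : ℕ} {old : U → Prop} {car rdg : U → Finset U} {Γ : Finset (Finset U)}

theorem IS.sub (h : IS n old car rdg Γ) {σ : Finset U} (hσ : σ ∈ Γ) {x : U} (hx : x ∈ σ) :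
    {x} ∈ Γ := h.cx.2 _ hσ _ (singleton_subset_iff.2 hx)

theorem Comp.card (h : IS n old car rdg Γ) {F : Finset U} (hF : Comp n old car rdg Γ F) :
    F.card = n + 1 := by
  rcases hF with ⟨-, h1, -⟩ | ⟨x, h1, h2, -, h3, -⟩
  · exact h1
  · rw [← h3]
    exact h.carc x h1 h2

theorem Comp.vert (h : IS n old car rdg Γ) {F : Finset U} (hF : Comp n old car rdg Γ F) :
    ∀ v ∈ F, {v} ∈ Γ := by
  rcases hF with ⟨h1, -, -⟩ | ⟨x, -, -, -, -, h1⟩
  · exact fun v hv => h.sub h1 hv
  · exact h1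

theorem Comp.isOld (h : IS n old car rdg Γ) {F : Finset U} (hF : Comp n old car rdg Γ F) :
    ∀ v ∈ F, old v := by
  rcases hF with ⟨-, -, h1⟩ | ⟨x, h1, h2, -, h3, -⟩
  · exact h1
  · rw [← h3]
    exact h.caro x h1 h2

/-- proper subsets of complete simplices are faces -/
theorem Comp.sub_mem (h : IS n old car rdg Γ) {F : Finset U} (hF : Comp n old car rdg Γ F)
    {A : Finset U} (hA : A ⊂ F) : A ∈ Γ := by
  have hv := hF.vert h
  rcases hF with ⟨h1, -, -⟩ | ⟨x, h1, h2, h3, rfl, -⟩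
  · exact h.cx.2 _ h1 _ hA.1
  · exact h.full2 x h1 h2 h3 A hA fun v hv' => hv v (hA.1 hv')

theorem ridge_in_comp (hvd : VertexDecomposable Γ) (h : IS n old car rdg Γ) {F₀ : Finset U}
    (hF₀ : Comp n old car rdg Γ F₀) {G : Finset U} (hG : G ∈ Γ) (hGc : G.card = n)
    (hGo : ∀ u ∈ G, old u) : ∃ F, Comp n old car rdg Γ F ∧ G ⊆ F := by
  by_contra hcon
  push Not at hcon
  set P : Finset U → Prop := fun τ => ∃ x ∈ τ, ¬ old x ∧ G ⊆ car x ∧
    ((∃ v ∈ car x, {v} ∉ Γ) ∨ rdg x = G) with hP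
  have step : ∀ τ ∈ Γ, τ.card = n + 1 → G ⊆ τ → P τ := by
    intro τ hτ hc hsub
    obtain ⟨z, hz, hzG⟩ : ∃ z ∈ τ, z ∉ G := exists_of_ssubset
      ⟨hsub, fun h' => by have := card_le_card h'; omega⟩
    have hτe : insert z G = τ := eq_of_subset_of_card_le (insert_subset hz hsub)
      (by rw [card_insert_of_notMem hzG]; omega)
    have hzΓ : {z} ∈ Γ := h.sub hτ hz
    by_cases hzo : old z
    · exfalso
      refine hcon τ (Or.inl ⟨hτ, hc, ?_⟩) hsub
      intro u hu
      rw [← hτe, mem_insert] at hu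
      rcases hu with rfl | hu
      · exact hzo
      · exact hGo u hu
    · have h1 : G ⊆ rdg z := fun u hu => h.form2 τ hτ z hz u (hsub hu) hzo (hGo u hu)
      have h2 := h1.trans (h.rsub z hzΓ hzo)
      refine ⟨z, hz, hzo, h2, ?_⟩
      by_cases hall : ∀ v ∈ car z, {v} ∈ Γ
      · right
        have h3 : rdg z ≠ car z := fun h3 =>
          hcon (car z) (Or.inr ⟨z, hzΓ, hzo, h3, rfl, hall⟩) h2
        exact (eq_of_subset_of_card_le h1 (by rw [h.rcard z hzΓ hzo h3, hGc])).symm
      · left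
        push Not at hall
        exact hall
  have hstart : ∃ τ ∈ Γ, τ.card = n + 1 ∧ P τ := by
    obtain ⟨τ, h1, h2, h3⟩ := h.pure G hG
    exact ⟨τ, h1, h3, step τ h1 h3 h2⟩
  have hadj : ∀ τ ∈ Γ, ∀ τ' ∈ Γ, τ.card = n + 1 → τ'.card = n + 1 → P τ →
      (τ ∩ τ').card = n → P τ' := by
    rintro τ hτ τ' hτ' hc hc' ⟨x, hx, hxo, hGx, halt⟩ hn
    have hxΓ : {x} ∈ Γ := h.sub hτ hx
    by_cases hnew : ∃ y ∈ τ ∩ τ', ¬ old y
    · obtain ⟨y, hy, hyo⟩ := hnew
      rw [mem_inter] at hy
      have hcar := h.form1 τ hτ x hx y hy.1 hxo hyo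
      have hyΓ : {y} ∈ Γ := h.sub hτ hy.1
      have hGy : G ⊆ car y := by rw [← hcar]; exact hGx
      refine ⟨y, hy.2, hyo, hGy, ?_⟩
      by_cases hall : ∃ v ∈ car y, {v} ∉ Γ
      · exact Or.inl hall
      · right
        have hr : rdg x = G := by
          rcases halt with h1 | h1
          · rw [hcar] at h1
            exact absurd h1 hall
          · exact h1
        push Not at hall
        have hy1 : rdg y ≠ car y := fun h3 =>
          hcon (car y) (Or.inr ⟨y, hyΓ, hyo, h3, rfl, hall⟩) hGy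
        have hx1 : rdg x ≠ car x := by
          intro h3
          have h4 := h.carc x hxΓ hxo
          rw [← h3, hr] at h4
          omega
        rw [← h.form3 τ hτ x hx y hy.1 hxo hyo hx1 hy1]
        exact hr
    · push Not at hnew
      have hsubr : τ ∩ τ' ⊆ rdg x := fun u hu =>
        h.form2 τ hτ x hx u (mem_inter.1 hu).1 hxo (hnew u hu)
      have hI : τ ∩ τ' = G := by
        rcases halt with ⟨v, hv, hvΓ⟩ | hr
        · have h1 : τ ∩ τ' ⊆ (car x).erase v := by
            intro u hu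
            rw [mem_erase]
            refine ⟨?_, h.rsub x hxΓ hxo (hsubr hu)⟩
            rintro rfl
            exact hvΓ (h.sub hτ (mem_inter.1 hu).1)
          have h2 : G ⊆ (car x).erase v := by
            intro u hu
            rw [mem_erase]
            refine ⟨?_, hGx hu⟩
            rintro rfl
            exact hvΓ (h.sub hG hu)
          have hce : ((car x).erase v).card = n := by
            rw [card_erase_of_mem hv, h.carc x hxΓ hxo]
            rfl
          rw [eq_of_subset_of_card_le h1 (by omega), eq_of_subset_of_card_le h2 (by omega)]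
        · refine eq_of_subset_of_card_le (hr ▸ hsubr) (by omega)
      exact step τ' hτ' hc' (hI ▸ inter_subset_right)
  have hall := strongly_connected hvd n h.pure h.max P hstart hadj
  rcases hF₀ with ⟨h1, h2, h3⟩ | ⟨w, hw, hwo, hw1, hw2, hw3⟩
  · obtain ⟨x, hx, hxo, -⟩ := hall F₀ h1 h2
    exact hxo (h3 x hx)
  · obtain ⟨τ, h1, h2, h3⟩ := h.pure {w} hw
    obtain ⟨x, hx, hxo, hGx, -⟩ := hall τ h1 h3
    have hcar := h.form1 τ h1 x hx w (h2 (mem_singleton_self w)) hxo hwo
    refine hcon F₀ (Or.inr ⟨w, hw, hwo, hw1, hw2, hw3⟩) ?_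
    rw [← hw2, ← hcar]
    exact hGx

theorem IS.del (h : IS n old car rdg Γ) {x : U} (hx : {x} ∈ Γ)
    (hd : IsPure (Pool.Agent.H933R3.del Γ x))
    (hs : ∀ F, IsFacet (Pool.Agent.H933R3.link Γ x) F → ¬ IsFacet (Pool.Agent.H933R3.del Γ x) F) :
    IS n old car rdg (Pool.Agent.H933R3.del Γ x) where
  cx := h.cx.del' x
  pure := shed_pure h.cx h.pure h.max hx hd hs
  max := fun σ hσ => h.max σ (mem_del'.1 hσ).1
  carc := fun y hy => h.carc y (mem_del'.1 hy).1
  caro := fun y hy => h.caro y (mem_del'.1 hy).1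
  rsub := fun y hy => h.rsub y (mem_del'.1 hy).1
  rcard := fun y hy => h.rcard y (mem_del'.1 hy).1
  form1 := fun σ hσ => h.form1 σ (mem_del'.1 hσ).1
  form2 := fun σ hσ => h.form2 σ (mem_del'.1 hσ).1
  form3 := fun σ hσ => h.form3 σ (mem_del'.1 hσ).1
  form4 := fun σ hσ => h.form4 σ (mem_del'.1 hσ).1
  full1 := by
    intro y hy hyo hy1 A hA hAc hv
    rw [mem_del'] at hy ⊢
    refine ⟨h.full1 y hy.1 hyo hy1 A hA hAc (fun v hv' => (mem_del'.1 (hv v hv')).1), ?_⟩
    rw [mem_insert]
    rintro (hxy | hxA)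
    · exact hy.2 (by rw [hxy]; exact mem_singleton_self _)
    · exact (mem_del'.1 (hv x hxA)).2 (mem_singleton_self _)
  full2 := by
    intro y hy hyo hy1 A hA hv
    rw [mem_del'] at hy ⊢
    refine ⟨h.full2 y hy.1 hyo hy1 A hA (fun v hv' => (mem_del'.1 (hv v hv')).1), ?_⟩
    intro hxA
    exact (mem_del'.1 (hv x hxA)).2 (mem_singleton_self _)
  inj := fun y z hy hz => h.inj y z (mem_del'.1 hy).1 (mem_del'.1 hz).1
  injF := fun y hy hyo hc => h.injF y (mem_del'.1 hy).1 hyo (mem_del'.1 hc).1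

theorem link_key (h : IS n old car rdg Γ) {v : U} (hvo : old v) {x : U}
    (hx : {x} ∈ Pool.Agent.H933R3.link Γ v) (hxo : ¬ old x) :
    {x} ∈ Γ ∧ v ∈ rdg x ∧ v ∈ car x := by
  rw [mem_link' h.cx] at hx
  have h1 : {x} ∈ Γ := h.cx.2 _ hx.2 _ (by simp)
  have h2 := h.form2 _ hx.2 x (by simp) v (by simp) hxo hvo
  exact ⟨h1, h2, h.rsub x h1 hxo h2⟩

theorem erase_eq_iff {A B : Finset U} {v : U} (h1 : v ∈ A) (h2 : v ∈ B) :
    A.erase v = B.erase v ↔ A = B := by
  constructor
  · intro h3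
    rw [← insert_erase h1, ← insert_erase h2, h3]
  · intro h3
    rw [h3]

theorem IS.link (h : IS (n + 1) old car rdg Γ) {v : U} (hv : {v} ∈ Γ)
    (hvo : old v) : IS n old (fun x => (car x).erase v) (fun x => (rdg x).erase v)
      (Pool.Agent.H933R3.link Γ v) where
  cx := h.cx.link' hv
  pure := by
    intro σ hσ
    rw [mem_link' h.cx] at hσ
    obtain ⟨τ, hτ, hsub, hcard⟩ := h.pure _ hσ.2
    have hvτ : v ∈ τ := hsub (mem_insert_self _ _)
    refine ⟨τ.erase v, ?_, ?_, ?_⟩
    · rw [mem_link' h.cx, insert_erase hvτ]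
      exact ⟨notMem_erase _ _, hτ⟩
    · intro x hx
      rw [mem_erase]
      exact ⟨fun hxv => hσ.1 (hxv ▸ hx), hsub (mem_insert_of_mem hx)⟩
    · rw [card_erase_of_mem hvτ, hcard]
      rfl
  max := by
    intro σ hσ
    rw [mem_link' h.cx] at hσ
    have h1 := h.max _ hσ.2
    rw [card_insert_of_notMem hσ.1] at h1
    omega
  carc := by
    intro x hx hxo
    obtain ⟨h1, h2, h3⟩ := link_key h hvo hx hxo
    rw [card_erase_of_mem h3, h.carc x h1 hxo]
    rfl
  caro := by
    intro x hx hxo u hu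
    obtain ⟨h1, h2, h3⟩ := link_key h hvo hx hxo
    exact h.caro x h1 hxo u (mem_erase.1 hu).2
  rsub := by
    intro x hx hxo
    obtain ⟨h1, h2, h3⟩ := link_key h hvo hx hxo
    exact erase_subset_erase v (h.rsub x h1 hxo)
  rcard := by
    intro x hx hxo hne
    obtain ⟨h1, h2, h3⟩ := link_key h hvo hx hxo
    rw [Ne, erase_eq_iff h2 h3] at hne
    rw [card_erase_of_mem h2, h.rcard x h1 hxo hne]
    rfl
  form1 := by
    intro σ hσ x hx y hy hxo hyo
    rw [mem_link' h.cx] at hσ
    rw [h.form1 _ hσ.2 x (mem_insert_of_mem hx) y (mem_insert_of_mem hy) hxo hyo]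
  form2 := by
    intro σ hσ x hx u hu hxo huo
    rw [mem_link' h.cx] at hσ
    simp only [mem_erase]
    exact ⟨fun huv => hσ.1 (huv ▸ hu),
      h.form2 _ hσ.2 x (mem_insert_of_mem hx) u (mem_insert_of_mem hu) hxo huo⟩
  form3 := by
    intro σ hσ x hx y hy hxo hyo hx1 hy1
    have hxl : {x} ∈ Pool.Agent.H933R3.link Γ v :=
      (h.cx.link' hv).2 _ hσ _ (singleton_subset_iff.2 hx)
    have hyl : {y} ∈ Pool.Agent.H933R3.link Γ v :=
      (h.cx.link' hv).2 _ hσ _ (singleton_subset_iff.2 hy)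
    obtain ⟨h1, h2, h3⟩ := link_key h hvo hxl hxo
    obtain ⟨h4, h5, h6⟩ := link_key h hvo hyl hyo
    simp only [Ne] at hx1 hy1 ⊢
    rw [erase_eq_iff h2 h3] at hx1
    rw [erase_eq_iff h5 h6] at hy1
    rw [mem_link' h.cx] at hσ
    rw [h.form3 _ hσ.2 x (mem_insert_of_mem hx) y (mem_insert_of_mem hy) hxo hyo hx1 hy1]
  form4 := by
    intro σ hσ x hx hxo hsub
    rw [mem_link' h.cx] at hσ
    refine h.form4 _ hσ.2 x (mem_insert_of_mem hx) hxo fun u hu => ?_
    rw [mem_insert]
    by_cases huv : u = v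
    · exact Or.inl huv
    · exact Or.inr (hsub (mem_erase.2 ⟨huv, hu⟩))
  full1 := by
    intro x hx hxo hx1 A hA hAc hvA
    obtain ⟨h1, h2, h3⟩ := link_key h hvo hx hxo
    rw [erase_eq_iff h2 h3] at hx1
    have hvA' : v ∉ A := fun hvA' => (mem_erase.1 (hA.1 hvA')).1 rfl
    have hss : insert v A ⊂ car x := by
      refine ⟨insert_subset h3 fun u hu => (mem_erase.1 (hA.1 hu)).2, fun hcon => hA.2 ?_⟩
      intro u hu
      rw [mem_erase] at hu
      exact (mem_insert.1 (hcon hu.2)).resolve_left hu.1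
    have h4 : insert x (insert v A) ∈ Γ := by
      refine h.full1 x h1 hxo hx1 _ hss (by rw [card_insert_of_notMem hvA']; omega) ?_
      intro u hu
      rw [mem_insert] at hu
      rcases hu with rfl | hu
      · exact hv
      · exact h.cx.2 _ ((mem_link' h.cx).1 (hvA u hu)).2 _ (by simp)
    rw [mem_link' h.cx, insert_comm v x A]
    refine ⟨?_, h4⟩
    rw [mem_insert]
    rintro (rfl | h5)
    · exact hxo hvo
    · exact hvA' h5
  full2 := by
    intro x hx hxo hx1 A hA hvA
    obtain ⟨h1, h2, h3⟩ := link_key h hvo hx hxo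
    rw [erase_eq_iff h2 h3] at hx1
    have hvA' : v ∉ A := fun hvA' => (mem_erase.1 (hA.1 hvA')).1 rfl
    have hss : insert v A ⊂ car x := by
      refine ⟨insert_subset h3 fun u hu => (mem_erase.1 (hA.1 hu)).2, fun hcon => hA.2 ?_⟩
      intro u hu
      rw [mem_erase] at hu
      exact (mem_insert.1 (hcon hu.2)).resolve_left hu.1
    have h4 : insert v A ∈ Γ := by
      refine h.full2 x h1 hxo hx1 _ hss ?_
      intro u hu
      rw [mem_insert] at hu
      rcases hu with rfl | hu
      · exact hv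
      · exact h.cx.2 _ ((mem_link' h.cx).1 (hvA u hu)).2 _ (by simp)
    rw [mem_link' h.cx]
    exact ⟨hvA', h4⟩
  inj := by
    intro x y hx hy hxo hyo hx1 hy1 hxy
    obtain ⟨h1, h2, h3⟩ := link_key h hvo hx hxo
    obtain ⟨h4, h5, h6⟩ := link_key h hvo hy hyo
    rw [erase_eq_iff h2 h3] at hx1
    rw [erase_eq_iff h5 h6] at hy1
    rw [erase_eq_iff h3 h6] at hxy
    exact h.inj x y h1 h4 hxo hyo hx1 hy1 hxy
  injF := by
    intro x hx hxo hc
    obtain ⟨h1, h2, h3⟩ := link_key h hvo hx hxo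
    rw [mem_link' h.cx, insert_erase h3] at hc
    exact h.injF x h1 hxo hc.2

theorem comp_link (hn : 1 ≤ n) (h : IS (n + 1) old car rdg Γ) {v : U} (hv : {v} ∈ Γ)
    (hvo : old v) (H : Finset U) :
    Comp n old (fun x => (car x).erase v) (fun x => (rdg x).erase v)
      (Pool.Agent.H933R3.link Γ v) H ↔ v ∉ H ∧ Comp (n + 1) old car rdg Γ (insert v H) := by
  constructor
  · rintro (⟨h1, h2, h3⟩ | ⟨x, h1, h2, h3, rfl, h5⟩)
    · rw [mem_link' h.cx] at h1
      refine ⟨h1.1, Or.inl ⟨h1.2, ?_, ?_⟩⟩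
      · rw [card_insert_of_notMem h1.1, h2]
      · intro u hu
        rw [mem_insert] at hu
        rcases hu with rfl | hu
        · exact hvo
        · exact h3 u hu
    · obtain ⟨k1, k2, k3⟩ := link_key h hvo h1 h2
      simp only at h3 h5 ⊢
      rw [erase_eq_iff k2 k3] at h3
      refine ⟨notMem_erase _ _, ?_⟩
      rw [insert_erase k3]
      refine Or.inr ⟨x, k1, h2, h3, rfl, fun u hu => ?_⟩
      by_cases huv : u = v
      · rw [huv]; exact hv
      · exact h.cx.2 _ ((mem_link' h.cx).1 (h5 u (mem_erase.2 ⟨huv, hu⟩))).2 _ (by simp)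
  · rintro ⟨hvH, hC⟩
    have hcard := hC.card h
    rw [card_insert_of_notMem hvH] at hcard
    have hedge : ∀ u ∈ H, {u} ∈ Pool.Agent.H933R3.link Γ v := by
      intro u hu
      have huv : v ≠ u := fun huv => hvH (huv ▸ hu)
      rw [mem_link' h.cx]
      refine ⟨by rw [mem_singleton]; exact huv, ?_⟩
      refine hC.sub_mem h ⟨?_, fun hcon => ?_⟩
      · exact insert_subset_insert v (singleton_subset_iff.2 hu)
      · have h1 := card_le_card hcon
        rw [card_insert_of_notMem hvH] at h1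
        have h2 := card_le_two (a := v) (b := u)
        omega
    rcases hC with ⟨h1, h2, h3⟩ | ⟨x, h1, h2, h3, h4, h5⟩
    · left
      refine ⟨(mem_link' h.cx).2 ⟨hvH, h1⟩, by omega, fun u hu => h3 u (mem_insert_of_mem hu)⟩
    · right
      have hxv : v ≠ x := fun hxv => h2 (hxv ▸ hvo)
      refine ⟨x, ?_, h2, by simp only [h3], ?_, hedge⟩
      · rw [mem_link' h.cx]
        refine ⟨by rw [mem_singleton]; exact hxv, ?_⟩
        have h6 : insert x {v} ∈ Γ := by
          refine h.full1 x h1 h2 h3 {v} ?_ (by rw [card_singleton]; omega) ?_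
          · rw [h4]
            refine ⟨by simp, fun hcon => ?_⟩
            have h1 := card_le_card hcon
            rw [card_insert_of_notMem hvH, card_singleton] at h1
            omega
          · intro u hu
            rw [mem_singleton] at hu
            rw [hu]; exact hv
        rwa [pair_comm] at h6
      · simp only
        rw [h4, erase_insert hvH]

theorem comp_del_old (_h : IS n old car rdg Γ) {x : U} (hxo : old x) (F : Finset U) :
    Comp n old car rdg (Pool.Agent.H933R3.del Γ x) F ↔ x ∉ F ∧ Comp n old car rdg Γ F := by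
  constructor
  · rintro (⟨h1, h2, h3⟩ | ⟨y, h1, h2, h3, h4, h5⟩)
    · exact ⟨(mem_del'.1 h1).2, Or.inl ⟨(mem_del'.1 h1).1, h2, h3⟩⟩
    · exact ⟨fun hx => (mem_del'.1 (h5 x hx)).2 (mem_singleton_self x),
        Or.inr ⟨y, (mem_del'.1 h1).1, h2, h3, h4, fun v hv => (mem_del'.1 (h5 v hv)).1⟩⟩
  · rintro ⟨hx, ⟨h1, h2, h3⟩ | ⟨y, h1, h2, h3, h4, h5⟩⟩
    · exact Or.inl ⟨mem_del'.2 ⟨h1, hx⟩, h2, h3⟩
    · refine Or.inr ⟨y, mem_del'.2 ⟨h1, ?_⟩, h2, h3, h4, fun v hv => mem_del'.2 ⟨h5 v hv, ?_⟩⟩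
      · rw [mem_singleton]
        rintro rfl
        exact h2 hxo
      · rw [mem_singleton]
        rintro rfl
        exact hx hv

theorem comp_del_new (h : IS n old car rdg Γ) {x : U} (hx : {x} ∈ Γ) (hxo : ¬ old x)
    (F : Finset U) :
    Comp n old car rdg (Pool.Agent.H933R3.del Γ x) F ↔
      Comp n old car rdg Γ F ∧ ¬ (rdg x = car x ∧ car x = F) := by
  constructor
  · rintro (⟨h1, h2, h3⟩ | ⟨y, h1, h2, h3, h4, h5⟩)
    · refine ⟨Or.inl ⟨(mem_del'.1 h1).1, h2, h3⟩, ?_⟩
      rintro ⟨-, rfl⟩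
      exact h.injF x hx hxo (mem_del'.1 h1).1
    · refine ⟨Or.inr ⟨y, (mem_del'.1 h1).1, h2, h3, h4, fun v hv => (mem_del'.1 (h5 v hv)).1⟩, ?_⟩
      rintro ⟨h6, h7⟩
      have h8 := h.inj x y hx (mem_del'.1 h1).1 hxo h2 h6 h3 (by rw [h7, h4])
      exact (mem_del'.1 h1).2 (by rw [h8]; exact mem_singleton_self _)
  · rintro ⟨h0, h6⟩
    have hxF : x ∉ F := fun hxF => hxo (h0.isOld h x hxF)
    rcases h0 with ⟨h1, h2, h3⟩ | ⟨y, h1, h2, h3, h4, h5⟩
    · exact Or.inl ⟨mem_del'.2 ⟨h1, hxF⟩, h2, h3⟩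
    · refine Or.inr ⟨y, mem_del'.2 ⟨h1, ?_⟩, h2, h3, h4, fun v hv => mem_del'.2 ⟨h5 v hv, ?_⟩⟩
      · rw [mem_singleton]
        rintro rfl
        exact h6 ⟨h3, h4⟩
      · rw [mem_singleton]
        rintro rfl
        exact hxF hv

/-- The main induction. -/
theorem main_ind (hvd : VertexDecomposable Γ) : ∀ (n : ℕ) (car rdg : U → Finset U),
    IS (n + 1) old car rdg Γ → ∃ l : List (Finset U), l.Nodup ∧
      (∀ F, F ∈ l ↔ Comp (n + 1) old car rdg Γ F) ∧ Sh l := by
  classical
  induction hvd with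
  | simplex σ =>
    intro n car rdg h
    have hσ : σ ∈ σ.powerset := mem_powerset.2 (Subset.refl σ)
    by_cases ho : ∀ u ∈ σ, old u
    · refine ⟨[σ], List.nodup_singleton _, ?_, ?_⟩
      · intro F
        rw [List.mem_singleton]
        constructor
        · rintro rfl
          left
          refine ⟨hσ, ?_, ho⟩
          obtain ⟨τ, h1, h2, h3⟩ := h.pure _ hσ
          rw [← h3, Subset.antisymm h2 (mem_powerset.1 h1)]
        · rintro (⟨h1, h2, -⟩ | ⟨x, h1, h2, -⟩)
          · exact eq_of_subset_of_card_le (mem_powerset.1 h1) (by rw [h2]; exact h.max _ hσ)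
          · exact absurd (ho x (singleton_subset_iff.1 (mem_powerset.1 h1))) h2
      · have := Sh.snoc [] σ Sh.nil (fun G hG => by simp at hG)
        simpa using this
    · push Not at ho
      obtain ⟨x, hx, hxo⟩ := ho
      refine ⟨[], List.nodup_nil, ?_, Sh.nil⟩
      intro F
      constructor
      · intro hF
        simp at hF
      · rintro (⟨h1, h2, h3⟩ | ⟨y, h1, h2, h3, h4, h5⟩)
        · exfalso
          have h4 : F = σ := eq_of_subset_of_card_le (mem_powerset.1 h1)
            (by rw [h2]; exact h.max _ hσ)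
          exact hxo (h3 x (h4 ▸ hx))
        · exfalso
          have hy : y ∈ σ := singleton_subset_iff.1 (mem_powerset.1 h1)
          refine h.form4 σ hσ y hy h2 ?_
          intro v hv
          rw [h4] at hv
          exact singleton_subset_iff.1 (mem_powerset.1 (h5 v hv))
  | shed Γ x hK hp hx hl hd hs ihl ihd =>
    intro n car rdg h
    have h' := h.del hx hd.pure hs
    obtain ⟨l', hnd, hmem', hsh'⟩ := ihd n car rdg h'
    by_cases hxo : old x
    · -- an old vertex is shed
      obtain ⟨l'', hnd'', hmem'', hsh''⟩ : ∃ l'' : List (Finset U), l''.Nodup ∧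
          (∀ H, H ∈ l'' ↔ x ∉ H ∧ Comp (n + 1) old car rdg Γ (insert x H)) ∧ Sh l'' := by
        rcases Nat.eq_zero_or_pos n with hn | hn
        · subst hn
          set S : Finset (Finset U) := (Γ.biUnion id).powerset.filter
            (fun H => x ∉ H ∧ Comp (0 + 1) old car rdg Γ (insert x H)) with hS
          have hSm : ∀ H, H ∈ S ↔ x ∉ H ∧ Comp (0 + 1) old car rdg Γ (insert x H) := by
            intro H
            rw [hS, mem_filter]
            constructor
            · exact fun h => h.2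
            · intro hH
              refine ⟨?_, hH⟩
              rw [mem_powerset]
              intro u hu
              rw [mem_biUnion]
              exact ⟨{u}, hH.2.vert h u (mem_insert_of_mem hu), mem_singleton_self u⟩
          refine ⟨S.toList, nodup_toList S, ?_, ?_⟩
          · intro H
            rw [mem_toList]
            exact hSm H
          · apply sh_of_card_one _ (nodup_toList S)
            intro H hH
            rw [mem_toList, hSm] at hH
            have h1 := hH.2.card h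
            rw [card_insert_of_notMem hH.1] at h1
            omega
        · obtain ⟨m, rfl⟩ : ∃ m, n = m + 1 := ⟨n - 1, by omega⟩
          obtain ⟨l'', hnd'', hmem'', hsh''⟩ := ihl m _ _ (h.link hx hxo)
          exact ⟨l'', hnd'', fun H => (hmem'' H).trans (comp_link (by omega) h hx hxo H), hsh''⟩
      have hv1 : ∀ F ∈ l', x ∉ F := by
        intro F hF
        rw [hmem', comp_del_old h hxo] at hF
        exact hF.1
      have hv2 : ∀ F ∈ l'', x ∉ F := fun F hF => ((hmem'' F).1 hF).1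
      refine ⟨l' ++ l''.map (insert x), ?_, ?_, ?_⟩
      · rw [List.nodup_append]
        refine ⟨hnd, ?_, ?_⟩
        · refine List.Nodup.map_on ?_ hnd''
          intro A hA B hB hAB
          have := congrArg (fun X => X.erase x) hAB
          simpa [erase_insert (hv2 A hA), erase_insert (hv2 B hB)] using this
        · intro A hA B hB hAB
          obtain ⟨H, -, rfl⟩ := List.mem_map.1 hB
          apply hv1 A hA
          rw [hAB]
          exact mem_insert_self _ _
      · intro F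
        rw [List.mem_append, hmem', comp_del_old h hxo]
        constructor
        · rintro (hF | hF)
          · exact hF.2
          · obtain ⟨H, hH, rfl⟩ := List.mem_map.1 hF
            exact ((hmem'' H).1 hH).2
        · intro hF
          by_cases hxF : x ∈ F
          · right
            rw [List.mem_map]
            exact ⟨F.erase x, (hmem'' _).2 ⟨notMem_erase _ _, by rwa [insert_erase hxF]⟩,
              insert_erase hxF⟩
          · exact Or.inl ⟨hxF, hF⟩
      · refine Sh.append_map hsh' hsh'' hv1 hv2 ?_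
        intro H hH hne
        obtain ⟨F₀, hF₀⟩ := List.exists_mem_of_ne_nil _ hne
        rw [hmem''] at hH
        have hcard := hH.2.card h
        rw [card_insert_of_notMem hH.1] at hcard
        have hHd : H ∈ Pool.Agent.H933R3.del Γ x := by
          rw [mem_del']
          refine ⟨hH.2.sub_mem h ?_, hH.1⟩
          exact ssubset_insert hH.1
        obtain ⟨F, hF, hHF⟩ := ridge_in_comp hd h' ((hmem' F₀).1 hF₀) hHd (by omega)
          (fun u hu => hH.2.isOld h u (mem_insert_of_mem hu))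
        exact ⟨F, (hmem' F).2 hF, hHF⟩
    · -- a new vertex is shed
      by_cases hfull : rdg x = car x ∧ ∀ v ∈ car x, {v} ∈ Γ
      · have hCx : Comp (n + 1) old car rdg Γ (car x) :=
          Or.inr ⟨x, hx, hxo, hfull.1, rfl, hfull.2⟩
        have hnotin : car x ∉ l' := by
          intro hin
          rw [hmem', comp_del_new h hx hxo] at hin
          exact hin.2 ⟨hfull.1, rfl⟩
        refine ⟨l' ++ [car x], ?_, ?_, ?_⟩
        · rw [List.nodup_append]
          refine ⟨hnd, List.nodup_singleton _, ?_⟩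
          intro A hA B hB hAB
          rw [List.mem_singleton] at hB
          rw [← hB, ← hAB] at hnotin
          exact hnotin hA
        · intro F
          rw [List.mem_append, List.mem_singleton, hmem', comp_del_new h hx hxo]
          constructor
          · rintro (hF | rfl)
            · exact hF.1
            · exact hCx
          · intro hF
            by_cases hFx : F = car x
            · exact Or.inr hFx
            · exact Or.inl ⟨hF, fun h1 => hFx h1.2.symm⟩
        · refine Sh.snoc _ _ hsh' ?_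
          intro F hF
          have hFC := (hmem' F).1 hF
          have hFc := hFC.card h'
          have hic := h.carc x hx hxo
          have hex : ∃ v ∈ car x, v ∉ F := by
            by_contra hcon
            push Not at hcon
            have : car x = F := eq_of_subset_of_card_le hcon (by omega)
            exact hnotin (this ▸ hF)
          obtain ⟨v, hv, hvF⟩ := hex
          have hss : (car x).erase v ⊂ car x := erase_ssubset hv
          have hR : (car x).erase v ∈ Pool.Agent.H933R3.del Γ x := by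
            rw [mem_del']
            refine ⟨hCx.sub_mem h hss, fun hxm => ?_⟩
            exact hxo (h.caro x hx hxo x (mem_erase.1 hxm).2)
          obtain ⟨F', hF', hsub⟩ := ridge_in_comp hd h' hFC hR
            (by rw [card_erase_of_mem hv, hic]; rfl)
            (fun u hu => h.caro x hx hxo u (mem_erase.1 hu).2)
          refine ⟨(car x).erase v, hss.1, ?_, ?_, F', (hmem' F').2 hF', hsub⟩
          · rw [card_erase_of_mem hv, hic]
            rfl
          · intro u hu
            rw [mem_inter] at hu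
            rw [mem_erase]
            refine ⟨?_, hu.1⟩
            rintro rfl
            exact hvF hu.2
      · refine ⟨l', hnd, ?_, hsh'⟩
        intro F
        rw [hmem', comp_del_new h hx hxo]
        constructor
        · exact fun h1 => h1.1
        · intro hF
          refine ⟨hF, ?_⟩
          rintro ⟨h1, rfl⟩
          exact hfull ⟨h1, hF.vert h⟩

end Pool.Agent.Y279.St
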