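import Mathlib
import Pool.Agent.Y279.St.Core

/-! Iterated stacking: if some complex obtained from `K` by a finite sequence of facet stackings is
vertex-decomposable, then `K` is shellable. -/

set_option autoImplicit false

namespace Pool.Agent.Y279.St

open Finset
open Pool.Agent.H933R3 (IsCx IsFacet IsPure VertexDecomposable Sh Good mem_del' mem_link'
  exists_facet shed_pure Shellable sh_of_card_one IsShelling)

variable {U : Type} [DecidableEq U]

/-- The complex obtained from `K` by stacking the facet `F` with the new vertex `w`: the face `F`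
is removed, and the faces `{w} ∪ G`, `G` a proper face of `F`, are added. -/
def stack (K : Finset (Finset U)) (F : Finset U) (w : U) : Finset (Finset U) :=
  K.erase F ∪ F.ssubsets.image (insert w)

/-- `B` is a filling of the boundary of the facet `F` of `K`: a complex all of whose facets have
as many elements as `F`, which contains all proper faces of `F` but not `F`, and all of whose
vertices outside `F` are new (not vertices of `K`). For example, a triangulated ball subdividing
the simplex `F` without subdividing its boundary. -/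
structure IsFilling (K : Finset (Finset U)) (F : Finset U) (B : Finset (Finset U)) : Prop where
  cx : IsCx B
  pure : ∀ G, IsFacet B G → G.card = F.card
  bdry : ∀ G, G ⊂ F → G ∈ B
  notMem : F ∉ B
  fresh : ∀ x, {x} ∈ B → {x} ∈ K → x ∈ F

/-- `K'` is obtained from `K` by a finite sequence of steps of two kinds: stacking a facet of the
current complex with a new vertex, and replacing a facet of the current complex that has a vertex
outside `K` (a facet inside an already stacked facet of `K`) by a filling of its boundary. -/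
inductive Refined (K : Finset (Finset U)) : Finset (Finset U) → Prop
  | refl : Refined K K
  | stack (K' : Finset (Finset U)) (F : Finset U) (w : U) (h : Refined K K') (hF : IsFacet K' F)
      (hw : {w} ∉ K') : Refined K (stack K' F w)
  | fill (K' : Finset (Finset U)) (F : Finset U) (B : Finset (Finset U)) (h : Refined K K')
      (hF : IsFacet K' F) (hx : ∃ x ∈ F, {x} ∉ K) (hB : IsFilling K' F B) :
      Refined K (K'.erase F ∪ B)

theorem mem_stack {K : Finset (Finset U)} {F : Finset U} {w : U} {σ : Finset U} :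
    σ ∈ stack K F w ↔ (σ ∈ K ∧ σ ≠ F) ∨ ∃ G, G ⊂ F ∧ insert w G = σ := by
  unfold stack
  rw [mem_union, mem_erase, mem_image]
  constructor
  · rintro (⟨h1, h2⟩ | ⟨G, h1, h2⟩)
    · exact Or.inl ⟨h2, h1⟩
    · exact Or.inr ⟨G, mem_ssubsets.1 h1, h2⟩
  · rintro (⟨h1, h2⟩ | ⟨G, h1, h2⟩)
    · exact Or.inl ⟨h2, h1⟩
    · exact Or.inr ⟨G, mem_ssubsets.2 h1, h2⟩

theorem cx_stack {K : Finset (Finset U)} (hK : IsCx K) {F : Finset U} (hF : IsFacet K F)
    (hne : F.Nonempty) (w : U) : IsCx (stack K F w) := by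
  refine ⟨mem_stack.2 (Or.inl ⟨hK.1, hne.ne_empty.symm⟩), ?_⟩
  intro σ hσ τ hτ
  rcases mem_stack.1 hσ with ⟨h1, h2⟩ | ⟨G, hG, rfl⟩
  · refine mem_stack.2 (Or.inl ⟨hK.2 _ h1 _ hτ, ?_⟩)
    rintro rfl
    exact h2 (hF.2 σ h1 hτ)
  · by_cases hw : w ∈ τ
    · refine mem_stack.2 (Or.inr ⟨τ.erase w, ?_, insert_erase hw⟩)
      refine lt_of_le_of_lt ?_ hG
      intro u hu
      rw [mem_erase] at hu
      exact (mem_insert.1 (hτ hu.2)).resolve_left hu.1
    · have h1 : τ ⊆ G := fun u hu => (mem_insert.1 (hτ hu)).resolve_left fun h => hw (h ▸ hu)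
      refine mem_stack.2 (Or.inl ⟨hK.2 _ hF.1 _ (h1.trans hG.1), ?_⟩)
      rintro rfl
      exact hG.2 h1

/-- a facet of the stacked complex with as many elements as `F` -/
theorem facet_stack {K : Finset (Finset U)} (hK : IsCx K) {F : Finset U} (hF : IsFacet K F)
    (hne : F.Nonempty) {w : U} (hw : {w} ∉ K) {G : Finset U} (hG : IsFacet K G) :
    ∃ G', IsFacet (stack K F w) G' ∧ G'.card = G.card := by
  have hwK : ∀ σ ∈ K, w ∉ σ := fun σ hσ hwσ => hw (hK.2 _ hσ _ (singleton_subset_iff.2 hwσ))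
  by_cases hGF : G = F
  · subst hGF
    obtain ⟨v, hv⟩ := hne
    have hss := erase_ssubset hv
    have hwG : w ∉ G.erase v := fun h => hwK G hG.1 (mem_erase.1 h).2
    refine ⟨insert w (G.erase v), ⟨mem_stack.2 (Or.inr ⟨_, hss, rfl⟩), ?_⟩, ?_⟩
    · intro τ hτ hsub
      rcases mem_stack.1 hτ with ⟨h1, h2⟩ | ⟨H, hH, rfl⟩
      · exact absurd (hsub (mem_insert_self _ _)) (hwK τ h1)
      · have h3 : G.erase v ⊆ H := fun u hu =>
          (mem_insert.1 (hsub (mem_insert_of_mem hu))).resolve_left fun h => hwG (h ▸ hu)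
        have h4 : G.erase v = H := by
          apply eq_of_subset_of_card_le h3
          have := card_lt_card hH
          rw [card_erase_of_mem hv]
          omega
        rw [h4]
    · have := card_pos.2 ⟨v, hv⟩
      rw [card_insert_of_notMem hwG, card_erase_of_mem hv]
      omega
  · refine ⟨G, ⟨mem_stack.2 (Or.inl ⟨hG.1, hGF⟩), ?_⟩, rfl⟩
    intro τ hτ hsub
    rcases mem_stack.1 hτ with ⟨h1, h2⟩ | ⟨H, hH, rfl⟩
    · exact hG.2 τ h1 hsub
    · exfalso
      have h3 : G ⊆ F := fun u hu => hH.1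
        ((mem_insert.1 (hsub hu)).resolve_left fun h => hwK G hG.1 (h ▸ hu))
      exact hGF (hG.2 F hF.1 h3).symm

theorem IsFilling.max {K : Finset (Finset U)} {F : Finset U} {B : Finset (Finset U)}
    (h : IsFilling K F B) : ∀ σ ∈ B, σ.card ≤ F.card := by
  intro σ hσ
  obtain ⟨τ, h1, h2⟩ := exists_facet hσ
  rw [← h.pure τ h1]
  exact card_le_card h2

theorem IsFilling.top {K : Finset (Finset U)} {F : Finset U} {B : Finset (Finset U)}
    (h : IsFilling K F B) : ∀ σ ∈ B, ∃ τ ∈ B, σ ⊆ τ ∧ τ.card = F.card := by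
  intro σ hσ
  obtain ⟨τ, h1, h2⟩ := exists_facet hσ
  exact ⟨τ, h1.1, h2, h.pure τ h1⟩

theorem IsFilling.inside {K : Finset (Finset U)} {F : Finset U} {B : Finset (Finset U)}
    (h : IsFilling K F B) {σ : Finset U} (hσ : σ ∈ B) (hσK : ∀ x ∈ σ, {x} ∈ K) : σ ⊂ F := by
  have h1 : σ ⊆ F := fun x hx => h.fresh x (h.cx.2 _ hσ _ (singleton_subset_iff.2 hx)) (hσK x hx)
  refine ⟨h1, fun h2 => h.notMem ?_⟩
  rw [Subset.antisymm h2 h1]
  exact hσ

theorem mem_fill {K B : Finset (Finset U)} {F σ : Finset U} :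
    σ ∈ K.erase F ∪ B ↔ (σ ∈ K ∧ σ ≠ F) ∨ σ ∈ B := by
  rw [mem_union, mem_erase, and_comm]

theorem cx_fill {K : Finset (Finset U)} (hK : IsCx K) {F : Finset U} (hF : IsFacet K F)
    {B : Finset (Finset U)} (hB : IsFilling K F B) : IsCx (K.erase F ∪ B) := by
  refine ⟨mem_fill.2 (Or.inr hB.cx.1), ?_⟩
  intro σ hσ τ hτ
  rcases mem_fill.1 hσ with ⟨h1, h2⟩ | h1
  · refine mem_fill.2 (Or.inl ⟨hK.2 _ h1 _ hτ, ?_⟩)
    rintro rfl
    exact h2 (hF.2 σ h1 hτ)
  · exact mem_fill.2 (Or.inr (hB.cx.2 _ h1 _ hτ))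

theorem facet_fill {K : Finset (Finset U)} (hK : IsCx K) {F : Finset U} (hF : IsFacet K F)
    {B : Finset (Finset U)} (hB : IsFilling K F B) {G : Finset U} (hG : IsFacet K G) :
    ∃ G', IsFacet (K.erase F ∪ B) G' ∧ G'.card = G.card := by
  have hsub : ∀ σ ∈ K, ∀ x ∈ σ, {x} ∈ K := fun σ hσ x hx =>
    hK.2 _ hσ _ (singleton_subset_iff.2 hx)
  by_cases hGF : G = F
  · subst hGF
    obtain ⟨τ, h1, -, h2⟩ := hB.top ∅ hB.cx.1
    refine ⟨τ, ⟨mem_fill.2 (Or.inr h1), fun σ hσ hτσ => ?_⟩, h2⟩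
    rcases mem_fill.1 hσ with ⟨h3, h4⟩ | h3
    · exfalso
      have h5 := card_lt_card (hB.inside h1 fun x hx => hsub σ h3 x (hτσ hx))
      omega
    · exact (eq_of_subset_of_card_le hτσ (by rw [h2]; exact hB.max σ h3)).symm
  · refine ⟨G, ⟨mem_fill.2 (Or.inl ⟨hG.1, hGF⟩), fun σ hσ hτσ => ?_⟩, rfl⟩
    rcases mem_fill.1 hσ with ⟨h3, h4⟩ | h3
    · exact hG.2 σ h3 hτσ
    · exfalso
      have h5 := hB.inside (hB.cx.2 _ h3 _ hτσ) (hsub G hG.1)
      exact hGF (hG.2 F hF.1 h5.1).symm

theorem pure_of_refined {K K' : Finset (Finset U)} (h : Refined K K') (hK : IsCx K) :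
    K' = ∅ ∨ (IsCx K' ∧ (IsPure K' → IsPure K)) := by
  induction h with
  | refl => exact Or.inr ⟨hK, id⟩
  | stack Γ F w h hF hw ih =>
    rcases ih with rfl | ⟨h1, h2⟩
    · exact absurd hF.1 (notMem_empty F)
    · rcases F.eq_empty_or_nonempty with rfl | hne
      · left
        rw [eq_empty_iff_forall_notMem]
        intro σ hσ
        rcases mem_stack.1 hσ with ⟨h3, h4⟩ | ⟨G, hG, -⟩
        · exact h4 (hF.2 σ h3 (empty_subset σ))
        · exact not_ssubset_empty G hG
      · right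
        refine ⟨cx_stack h1 hF hne w, fun hp => h2 ?_⟩
        intro A B hA hB
        obtain ⟨A', h3, h4⟩ := facet_stack h1 hF hne hw hA
        obtain ⟨B', h5, h6⟩ := facet_stack h1 hF hne hw hB
        rw [← h4, ← h6]
        exact hp A' B' h3 h5
  | fill Γ F B h hF hx hB ih =>
    rcases ih with rfl | ⟨h1, h2⟩
    · exact absurd hF.1 (notMem_empty F)
    · right
      refine ⟨cx_fill h1 hF hB, fun hp => h2 ?_⟩
      intro A C hA hC
      obtain ⟨A', h3, h4⟩ := facet_fill h1 hF hB hA
      obtain ⟨C', h5, h6⟩ := facet_fill h1 hF hB hC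
      rw [← h4, ← h6]
      exact hp A' C' h3 h5

variable {n : ℕ} {old : U → Prop} {car rdg : U → Finset U} {Γ : Finset (Finset U)}

/-- the data of the new vertex -/
theorem exists_data (h : IS n old car rdg Γ) {F : Finset U} (hF : F ∈ Γ) (hFc : F.card = n + 1) :
    ∃ c r : Finset U, c.card = n + 1 ∧ (∀ u ∈ c, old u) ∧ r ⊆ c ∧ (r ≠ c → r.card = n) ∧
      (∀ x ∈ F, ¬ old x → car x = c) ∧ (∀ u ∈ F, old u → u ∈ r) ∧
      (r ≠ c → ∀ y ∈ F, ¬ old y → rdg y ≠ car y → rdg y = r) ∧ (r = c → c = F) ∧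
      ((∀ u ∈ F, old u) → c = F ∧ r = F) ∧ (c ∈ Γ → c = F) := by
  classical
  by_cases ho : ∀ u ∈ F, old u
  · exact ⟨F, F, hFc, ho, Subset.refl F, fun h => absurd rfl h, fun x hx hxo => absurd (ho x hx) hxo,
      fun u hu _ => hu, fun h => absurd rfl h, fun _ => rfl, fun _ => ⟨rfl, rfl⟩, fun _ => rfl⟩
  · have ho' := ho
    push Not at ho
    obtain ⟨x, hx, hxo⟩ := ho
    have hxΓ : {x} ∈ Γ := h.sub hF hx
    have hc := h.carc x hxΓ hxo
    have h1 : ∀ y ∈ F, ¬ old y → car y = car x := fun y hy hyo => h.form1 F hF y hy x hx hyo hxo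
    by_cases hd : ∃ y ∈ F, ¬ old y ∧ rdg y ≠ car y
    · obtain ⟨y, hy, hyo, hy1⟩ := hd
      have hyΓ : {y} ∈ Γ := h.sub hF hy
      have hcy := h1 y hy hyo
      refine ⟨car x, rdg y, hc, h.caro x hxΓ hxo, ?_, fun _ => h.rcard y hyΓ hyo hy1, h1, ?_, ?_,
        ?_, fun h => absurd h ho', fun h2 => absurd h2 (h.injF x hxΓ hxo)⟩
      · rw [← hcy]
        exact h.rsub y hyΓ hyo
      · exact fun u hu huo => h.form2 F hF y hy u hu hyo huo
      · exact fun _ z hz hzo hz1 => h.form3 F hF z hz y hy hzo hyo hz1 hy1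
      · intro h2
        exact absurd (h2.trans hcy.symm) hy1
    · push Not at hd
      have hx1 := hd x hx hxo
      have hu : ∀ y ∈ F, y ≠ x → old y := by
        intro y hy hyx
        by_contra hyo
        exact hyx (h.inj y x (h.sub hF hy) hxΓ hyo hxo (hd y hy hyo) hx1 (h1 y hy hyo))
      have hrc : (F.erase x).card = n := by
        rw [card_erase_of_mem hx, hFc]
        rfl
      refine ⟨car x, F.erase x, hc, h.caro x hxΓ hxo, ?_, fun _ => hrc, h1, ?_, ?_, ?_,
        fun h => absurd h ho', fun h2 => absurd h2 (h.injF x hxΓ hxo)⟩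
      · intro u hu'
        rw [mem_erase] at hu'
        rw [← hx1]
        exact h.form2 F hF x hx u hu'.2 hxo (hu u hu'.2 hu'.1)
      · intro u hu' huo
        rw [mem_erase]
        exact ⟨fun h => hxo (h ▸ huo), hu'⟩
      · exact fun _ z hz hzo hz1 => absurd (hd z hz hzo) hz1
      · intro h2
        rw [h2] at hrc
        omega

theorem IS.stack (hn : 1 ≤ n) (h : IS n old car rdg Γ) (hold : ∀ v, old v → {v} ∈ Γ)
    {F : Finset U} (hF : IsFacet Γ F) {w : U} (hw : {w} ∉ Γ) :
    ∃ car' rdg' : U → Finset U, IS n old car' rdg' (stack Γ F w) ∧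
      ∀ F', Comp n old car' rdg' (Pool.Agent.Y279.St.stack Γ F w) F' ↔ Comp n old car rdg Γ F' := by
  have hFc : F.card = n + 1 := by
    obtain ⟨τ, h1, h2, h3⟩ := h.pure F hF.1
    rw [← hF.2 τ h1 h2]
    exact h3
  have hne : F.Nonempty := card_pos.1 (by omega)
  have hwo : ¬ old w := fun h1 => hw (hold w h1)
  have hwΓ : ∀ σ ∈ Γ, w ∉ σ := fun σ hσ hwσ => hw (h.sub hσ hwσ)
  obtain ⟨c, r, c1, c2, c3, c4, H1, H2, H3, H5, H6, H7⟩ := exists_data h hF.1 hFc
  set car' : U → Finset U := Function.update car w c with hcar'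
  set rdg' : U → Finset U := Function.update rdg w r with hrdg'
  have cw : car' w = c := Function.update_self w c car
  have rw' : rdg' w = r := Function.update_self w r rdg
  have cne : ∀ x, x ≠ w → car' x = car x := fun x hx => Function.update_of_ne hx c car
  have rne : ∀ x, x ≠ w → rdg' x = rdg x := fun x hx => Function.update_of_ne hx r rdg
  have hneΓ : ∀ x, {x} ∈ Γ → x ≠ w := fun x hx hxw => hw (hxw ▸ hx)
  have hcx := cx_stack h.cx hF hne w
  have hsing : ∀ x, {x} ∈ Pool.Agent.Y279.St.stack Γ F w ↔ {x} ∈ Γ ∨ x = w := by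
    intro x
    rw [mem_stack]
    constructor
    · rintro (⟨h1, -⟩ | ⟨G, -, h1⟩)
      · exact Or.inl h1
      · right
        have : w ∈ ({x} : Finset U) := h1 ▸ mem_insert_self w G
        exact (mem_singleton.1 this).symm
    · rintro (h1 | rfl)
      · left
        refine ⟨h1, fun h2 => ?_⟩
        rw [← h2, card_singleton] at hFc
        omega
      · right
        exact ⟨∅, empty_ssubset.2 hne, rfl⟩
  have hcarc : ∀ x, {x} ∈ Pool.Agent.Y279.St.stack Γ F w → ¬ old x →
      (car' x).card = n + 1 ∧ (∀ u ∈ car' x, old u) ∧ rdg' x ⊆ car' x ∧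
        (rdg' x ≠ car' x → (rdg' x).card = n) := by
    intro x hx hxo
    rcases (hsing x).1 hx with h1 | rfl
    · have hxw := hneΓ x h1
      rw [cne x hxw, rne x hxw]
      exact ⟨h.carc x h1 hxo, h.caro x h1 hxo, h.rsub x h1 hxo, h.rcard x h1 hxo⟩
    · rw [cw, rw']
      exact ⟨c1, c2, c3, c4⟩
  have hI : ∀ {σ : Finset U}, σ ∈ Pool.Agent.Y279.St.stack Γ F w → ∀ x ∈ σ, ¬ old x →
      (σ ∈ Γ ∧ x ≠ w) ∨ (∃ G, G ⊂ F ∧ insert w G = σ ∧ (x = w ∨ (x ∈ F ∧ x ≠ w))) := by
    intro σ hσ x hx hxo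
    rcases mem_stack.1 hσ with ⟨h1, -⟩ | ⟨G, hG, h1⟩
    · exact Or.inl ⟨h1, fun h2 => hwΓ σ h1 (h2 ▸ hx)⟩
    · right
      refine ⟨G, hG, h1, ?_⟩
      rw [← h1, mem_insert] at hx
      rcases hx with hx | hx
      · exact Or.inl hx
      · exact Or.inr ⟨hG.1 hx, fun h2 => hwΓ F hF.1 (h2 ▸ hG.1 hx)⟩
  refine ⟨car', rdg', ?_, ?_⟩
  · refine ⟨hcx, ?_, ?_, fun x hx hxo => (hcarc x hx hxo).1, fun x hx hxo => (hcarc x hx hxo).2.1,
      fun x hx hxo => (hcarc x hx hxo).2.2.1, fun x hx hxo => (hcarc x hx hxo).2.2.2,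
      ?_, ?_, ?_, ?_, ?_, ?_, ?_, ?_⟩
    · -- pure
      have key : ∀ G, G ⊂ F → ∃ τ ∈ Pool.Agent.Y279.St.stack Γ F w, insert w G ⊆ τ ∧
          τ.card = n + 1 := by
        intro G hG
        obtain ⟨v, hv, hvG⟩ := exists_of_ssubset hG
        have hss := erase_ssubset hv
        refine ⟨insert w (F.erase v), mem_stack.2 (Or.inr ⟨_, hss, rfl⟩), ?_, ?_⟩
        · apply insert_subset_insert
          intro u hu
          rw [mem_erase]
          refine ⟨?_, hG.1 hu⟩
          rintro rfl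
          exact hvG hu
        · rw [card_insert_of_notMem fun h1 => hwΓ F hF.1 (mem_erase.1 h1).2,
            card_erase_of_mem hv, hFc]
          rfl
      intro σ hσ
      rcases mem_stack.1 hσ with ⟨h1, h2⟩ | ⟨G, hG, rfl⟩
      · obtain ⟨τ, h3, h4, h5⟩ := h.pure σ h1
        by_cases hτ : τ = F
        · subst hτ
          obtain ⟨τ', h6, h7, h8⟩ := key σ ⟨h4, fun h6 => h2 (Subset.antisymm h4 h6)⟩
          exact ⟨τ', h6, (subset_insert w σ).trans h7, h8⟩
        · exact ⟨τ, mem_stack.2 (Or.inl ⟨h3, hτ⟩), h4, h5⟩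
      · exact key G hG
    · -- max
      intro σ hσ
      rcases mem_stack.1 hσ with ⟨h1, h2⟩ | ⟨G, hG, rfl⟩
      · exact h.max σ h1
      · have h3 := card_insert_le w G
        have h4 := card_lt_card hG
        omega
    · -- form1
      have key : ∀ x, (x = w ∨ (x ∈ F ∧ x ≠ w)) → ¬ old x → car' x = c := by
        rintro x (rfl | ⟨h1, h2⟩) hxo
        · exact cw
        · rw [cne x h2]
          exact H1 x h1 hxo
      intro σ hσ x hx y hy hxo hyo
      rcases hI hσ x hx hxo with ⟨h1, h2⟩ | ⟨G, hG, h1, h2⟩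
      · have h3 : y ≠ w := fun h3 => hwΓ σ h1 (h3 ▸ hy)
        rw [cne x h2, cne y h3]
        exact h.form1 σ h1 x hx y hy hxo hyo
      · rcases hI hσ y hy hyo with ⟨h3, h4⟩ | ⟨G', hG', h3, h4⟩
        · exact absurd (h1 ▸ mem_insert_self w G) (hwΓ σ h3)
        · rw [key x h2 hxo, key y h4 hyo]
    · -- form2
      intro σ hσ x hx u hu hxo huo
      have huw : u ≠ w := fun h1 => hwo (h1 ▸ huo)
      rcases hI hσ x hx hxo with ⟨h1, h2⟩ | ⟨G, hG, h1, h2⟩
      · rw [rne x h2]
        exact h.form2 σ h1 x hx u hu hxo huo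
      · have huF : u ∈ F := by
          rw [← h1, mem_insert] at hu
          exact hG.1 (hu.resolve_left huw)
        rcases h2 with rfl | ⟨h2, h3⟩
        · rw [rw']
          exact H2 u huF huo
        · rw [rne x h3]
          exact h.form2 F hF.1 x h2 u huF hxo huo
    · -- form3
      intro σ hσ x hx y hy hxo hyo hx1 hy1
      rcases hI hσ x hx hxo with ⟨h1, h2⟩ | ⟨G, hG, h1, h2⟩
      · have h3 : y ≠ w := fun h3 => hwΓ σ h1 (h3 ▸ hy)
        rw [cne x h2, rne x h2] at hx1
        rw [cne y h3, rne y h3] at hy1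
        rw [rne x h2, rne y h3]
        exact h.form3 σ h1 x hx y hy hxo hyo hx1 hy1
      · rcases hI hσ y hy hyo with ⟨h3, h4⟩ | ⟨G', hG', h3, h4⟩
        · exact absurd (h1 ▸ mem_insert_self w G) (hwΓ σ h3)
        · rcases h2 with h2 | ⟨h2, h5⟩
          · rcases h4 with h4 | ⟨h4, h6⟩
            · rw [h2, h4]
            · rw [h2, cw, rw'] at hx1
              rw [cne y h6, rne y h6] at hy1
              rw [h2, rw', rne y h6]
              exact (H3 hx1 y h4 hyo hy1).symm
          · rcases h4 with h4 | ⟨h4, h6⟩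
            · rw [h4, cw, rw'] at hy1
              rw [cne x h5, rne x h5] at hx1
              rw [h4, rw', rne x h5]
              exact H3 hy1 x h2 hxo hx1
            · rw [cne x h5, rne x h5] at hx1
              rw [cne y h6, rne y h6] at hy1
              rw [rne x h5, rne y h6]
              exact h.form3 F hF.1 x h2 y h4 hxo hyo hx1 hy1
    · -- form4
      intro σ hσ x hx hxo hsub
      obtain ⟨k1, k2, -, -⟩ := hcarc x (hcx.2 _ hσ _ (singleton_subset_iff.2 hx)) hxo
      rcases hI hσ x hx hxo with ⟨h1, h2⟩ | ⟨G, hG, h1, h2⟩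
      · rw [cne x h2] at hsub
        exact h.form4 σ h1 x hx hxo hsub
      · have h3 : car' x ⊆ G := by
          intro u hu
          have h4 := hsub hu
          rw [← h1, mem_insert] at h4
          refine h4.resolve_left fun h5 => hwo (h5 ▸ k2 u hu)
        have h4 := card_le_card h3
        have h5 := card_lt_card hG
        omega
    · -- full1
      intro x hx hxo hx1 A hA hAc hv
      rcases (hsing x).1 hx with h1 | rfl
      · have hxw := hneΓ x h1
        rw [cne x hxw, rne x hxw] at hx1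
        rw [cne x hxw] at hA
        refine mem_stack.2 (Or.inl ⟨h.full1 x h1 hxo hx1 A hA hAc fun v hv' =>
          hold v (h.caro x h1 hxo v (hA.1 hv')), fun h2 => ?_⟩)
        have h3 := card_insert_le x A
        rw [h2, hFc] at h3
        omega
      · rw [cw, rw'] at hx1
        rw [cw, H5 hx1] at hA
        exact mem_stack.2 (Or.inr ⟨A, hA, rfl⟩)
    · -- full2
      intro x hx hxo hx1 A hA hv
      rcases (hsing x).1 hx with h1 | rfl
      · have hxw := hneΓ x h1
        rw [cne x hxw, rne x hxw] at hx1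
        rw [cne x hxw] at hA
        refine mem_stack.2 (Or.inl ⟨h.full2 x h1 hxo hx1 A hA fun v hv' =>
          hold v (h.caro x h1 hxo v (hA.1 hv')), fun h2 => ?_⟩)
        have h3 := card_lt_card hA
        rw [h2, hFc, h.carc x h1 hxo] at h3
        omega
      · rw [cw, rw'] at hx1
        rw [cw, H5 hx1] at hA
        exact mem_stack.2 (Or.inl ⟨h.cx.2 _ hF.1 _ hA.1, hA.ne⟩)
    · -- inj
      intro x y hx hy hxo hyo hx1 hy1 hxy
      rcases (hsing x).1 hx with h1 | h1
      · have hxw := hneΓ x h1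
        rw [cne x hxw, rne x hxw] at hx1
        rw [cne x hxw] at hxy
        rcases (hsing y).1 hy with h2 | h2
        · have hyw := hneΓ y h2
          rw [cne y hyw, rne y hyw] at hy1
          rw [cne y hyw] at hxy
          exact h.inj x y h1 h2 hxo hyo hx1 hy1 hxy
        · exfalso
          rw [h2, cw, rw'] at hy1
          rw [h2, cw, H5 hy1] at hxy
          exact h.injF x h1 hxo (hxy ▸ hF.1)
      · rcases (hsing y).1 hy with h2 | h2
        · exfalso
          have hyw := hneΓ y h2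
          rw [h1, cw, rw'] at hx1
          rw [h1, cw, H5 hx1, cne y hyw] at hxy
          exact h.injF y h2 hyo (hxy ▸ hF.1)
        · rw [h1, h2]
    · -- injF
      intro x hx hxo hc
      obtain ⟨k1, k2, -, -⟩ := hcarc x hx hxo
      rcases mem_stack.1 hc with ⟨h1, h2⟩ | ⟨G, hG, h1⟩
      · rcases (hsing x).1 hx with h3 | rfl
        · rw [cne x (hneΓ x h3)] at h1
          exact h.injF x h3 hxo h1
        · rw [cw] at h1 h2
          exact h2 (H7 h1)
      · exact hwo (k2 w (h1 ▸ mem_insert_self w G))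
  · intro F'
    constructor
    · rintro (⟨h1, h2, h3⟩ | ⟨x, h1, h2, h3, h4, h5⟩)
      · rcases mem_stack.1 h1 with ⟨h4, -⟩ | ⟨G, hG, h4⟩
        · exact Or.inl ⟨h4, h2, h3⟩
        · exact absurd (h3 w (h4 ▸ mem_insert_self w G)) hwo
      · rcases (hsing x).1 h1 with h6 | rfl
        · have hxw := hneΓ x h6
          rw [cne x hxw] at h4
          rw [cne x hxw, rne x hxw] at h3
          refine Or.inr ⟨x, h6, h2, h3, h4, fun v hv => hold v ?_⟩
          rw [← h4] at hv
          exact h.caro x h6 h2 v hv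
        · rw [cw, rw'] at h3
          rw [cw] at h4
          have h7 := H5 h3
          left
          rw [← h4]
          exact ⟨h7 ▸ hF.1, c1, c2⟩
    · rintro (⟨h1, h2, h3⟩ | ⟨x, h1, h2, h3, h4, h5⟩)
      · by_cases hF' : F' = F
        · subst hF'
          obtain ⟨h4, h5⟩ := H6 h3
          right
          refine ⟨w, (hsing w).2 (Or.inr rfl), hwo, ?_, ?_, fun v hv => (hsing v).2
            (Or.inl (h.sub h1 hv))⟩
          · rw [cw, rw', h4, h5]
          · rw [cw, h4]
        · exact Or.inl ⟨mem_stack.2 (Or.inl ⟨h1, hF'⟩), h2, h3⟩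
      · have hxw := hneΓ x h1
        refine Or.inr ⟨x, (hsing x).2 (Or.inl h1), h2, ?_, ?_, fun v hv => (hsing v).2
          (Or.inl (h5 v hv))⟩
        · rw [cne x hxw, rne x hxw]
          exact h3
        · rw [cne x hxw]
          exact h4

open Classical in
theorem IS.fill (hn : 1 ≤ n) (h : IS n old car rdg Γ) (hold : ∀ v, old v → {v} ∈ Γ)
    {F : Finset U} (hF : IsFacet Γ F) (hx₀ : ∃ x ∈ F, ¬ old x) {B : Finset (Finset U)}
    (hB : IsFilling Γ F B) :
    ∃ car' rdg' : U → Finset U, IS n old car' rdg' (Γ.erase F ∪ B) ∧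
      ∀ F', Comp n old car' rdg' (Γ.erase F ∪ B) F' ↔ Comp n old car rdg Γ F' := by
  have hFc : F.card = n + 1 := by
    obtain ⟨τ, h1, h2, h3⟩ := h.pure F hF.1
    rw [← hF.2 τ h1 h2]
    exact h3
  obtain ⟨x₀, hx₀, hx₀o⟩ := hx₀
  obtain ⟨c, r, c1, c2, c3, c4, H1, H2, H3, H5, H6, H7⟩ := exists_data h hF.1 hFc
  have hcF : c ≠ F := fun h1 => hx₀o (c2 x₀ (h1 ▸ hx₀))
  have hrc : r ≠ c := fun h1 => hcF (H5 h1)
  have hcΓ : c ∉ Γ := fun h1 => hcF (H7 h1)
  set car' : U → Finset U := fun z => if {z} ∈ Γ then car z else c with hcar'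
  set rdg' : U → Finset U := fun z => if {z} ∈ Γ then rdg z else r with hrdg'
  have cin : ∀ z, {z} ∈ Γ → car' z = car z := fun z hz => if_pos hz
  have cout : ∀ z, {z} ∉ Γ → car' z = c := fun z hz => if_neg hz
  have rin : ∀ z, {z} ∈ Γ → rdg' z = rdg z := fun z hz => if_pos hz
  have rout : ∀ z, {z} ∉ Γ → rdg' z = r := fun z hz => if_neg hz
  have hsing : ∀ x, {x} ∈ Γ.erase F ∪ B ↔ {x} ∈ Γ ∨ {x} ∈ B := by
    intro x
    rw [mem_fill]
    constructor
    · rintro (⟨h1, -⟩ | h1)
      · exact Or.inl h1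
      · exact Or.inr h1
    · rintro (h1 | h1)
      · refine Or.inl ⟨h1, fun h2 => ?_⟩
        rw [← h2, card_singleton] at hFc
        omega
      · exact Or.inr h1
  have hcarc : ∀ x, {x} ∈ Γ.erase F ∪ B → ¬ old x →
      (car' x).card = n + 1 ∧ (∀ u ∈ car' x, old u) ∧ rdg' x ⊆ car' x ∧
        (rdg' x ≠ car' x → (rdg' x).card = n) := by
    intro x hx hxo
    by_cases h1 : {x} ∈ Γ
    · rw [cin x h1, rin x h1]
      exact ⟨h.carc x h1 hxo, h.caro x h1 hxo, h.rsub x h1 hxo, h.rcard x h1 hxo⟩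
    · rw [cout x h1, rout x h1]
      exact ⟨c1, c2, c3, c4⟩
  have hfirst : ∀ x, rdg' x = car' x → {x} ∈ Γ ∧ rdg x = car x := by
    intro x hx1
    by_cases h1 : {x} ∈ Γ
    · rw [cin x h1, rin x h1] at hx1
      exact ⟨h1, hx1⟩
    · rw [cout x h1, rout x h1] at hx1
      exact absurd hx1 hrc
  -- vertices of faces of `B`
  have hBv : ∀ {σ : Finset U}, σ ∈ B → ∀ x ∈ σ, {x} ∈ Γ → x ∈ F := fun hσ x hx hxΓ =>
    hB.fresh x (hB.cx.2 _ hσ _ (singleton_subset_iff.2 hx)) hxΓ
  have hBcar : ∀ {σ : Finset U}, σ ∈ B → ∀ x ∈ σ, ¬ old x → car' x = c := by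
    intro σ hσ x hx hxo
    by_cases h1 : {x} ∈ Γ
    · rw [cin x h1]
      exact H1 x (hBv hσ x hx h1) hxo
    · exact cout x h1
  have hBrdg : ∀ {σ : Finset U}, σ ∈ B → ∀ x ∈ σ, ¬ old x → rdg' x ≠ car' x → rdg' x = r := by
    intro σ hσ x hx hxo hx1
    by_cases h1 : {x} ∈ Γ
    · rw [cin x h1, rin x h1] at hx1
      rw [rin x h1]
      exact H3 hrc x (hBv hσ x hx h1) hxo hx1
    · exact rout x h1
  refine ⟨car', rdg', ?_, ?_⟩
  · refine ⟨cx_fill h.cx hF hB, ?_, ?_, fun x hx hxo => (hcarc x hx hxo).1,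
      fun x hx hxo => (hcarc x hx hxo).2.1,
      fun x hx hxo => (hcarc x hx hxo).2.2.1, fun x hx hxo => (hcarc x hx hxo).2.2.2,
      ?_, ?_, ?_, ?_, ?_, ?_, ?_, ?_⟩
    · -- pure
      have key : ∀ σ ∈ B, ∃ τ ∈ Γ.erase F ∪ B, σ ⊆ τ ∧ τ.card = n + 1 := by
        intro σ hσ
        obtain ⟨τ, h1, h2, h3⟩ := hB.top σ hσ
        exact ⟨τ, mem_fill.2 (Or.inr h1), h2, h3.trans hFc⟩
      intro σ hσ
      rcases mem_fill.1 hσ with ⟨h1, h2⟩ | h1
      · obtain ⟨τ, h3, h4, h5⟩ := h.pure σ h1
        by_cases hτ : τ = F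
        · subst hτ
          exact key σ (hB.bdry σ ⟨h4, fun h6 => h2 (Subset.antisymm h4 h6)⟩)
        · exact ⟨τ, mem_fill.2 (Or.inl ⟨h3, hτ⟩), h4, h5⟩
      · exact key σ h1
    · -- max
      intro σ hσ
      rcases mem_fill.1 hσ with ⟨h1, h2⟩ | h1
      · exact h.max σ h1
      · rw [← hFc]
        exact hB.max σ h1
    · -- form1
      intro σ hσ x hx y hy hxo hyo
      rcases mem_fill.1 hσ with ⟨h1, h2⟩ | h1
      · rw [cin x (h.sub h1 hx), cin y (h.sub h1 hy)]
        exact h.form1 σ h1 x hx y hy hxo hyo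
      · rw [hBcar h1 x hx hxo, hBcar h1 y hy hyo]
    · -- form2
      intro σ hσ x hx u hu hxo huo
      rcases mem_fill.1 hσ with ⟨h1, h2⟩ | h1
      · rw [rin x (h.sub h1 hx)]
        exact h.form2 σ h1 x hx u hu hxo huo
      · have huF : u ∈ F := hBv h1 u hu (hold u huo)
        by_cases h3 : {x} ∈ Γ
        · rw [rin x h3]
          exact h.form2 F hF.1 x (hBv h1 x hx h3) u huF hxo huo
        · rw [rout x h3]
          exact H2 u huF huo
    · -- form3
      intro σ hσ x hx y hy hxo hyo hx1 hy1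
      rcases mem_fill.1 hσ with ⟨h1, h2⟩ | h1
      · have h3 := h.sub h1 hx
        have h4 := h.sub h1 hy
        rw [cin x h3, rin x h3] at hx1
        rw [cin y h4, rin y h4] at hy1
        rw [rin x h3, rin y h4]
        exact h.form3 σ h1 x hx y hy hxo hyo hx1 hy1
      · rw [hBrdg h1 x hx hxo hx1, hBrdg h1 y hy hyo hy1]
    · -- form4
      intro σ hσ x hx hxo hsub
      rcases mem_fill.1 hσ with ⟨h1, h2⟩ | h1
      · rw [cin x (h.sub h1 hx)] at hsub
        exact h.form4 σ h1 x hx hxo hsub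
      · rw [hBcar h1 x hx hxo] at hsub
        have h3 : c ⊆ F := fun u hu => hBv h1 u (hsub hu) (hold u (c2 u hu))
        exact hcF (eq_of_subset_of_card_le h3 (by rw [hFc, c1]))
    · -- full1
      intro x hx hxo hx1 A hA hAc hv
      obtain ⟨h1, h2⟩ := hfirst x hx1
      rw [cin x h1] at hA
      refine mem_fill.2 (Or.inl ⟨h.full1 x h1 hxo h2 A hA hAc fun v hv' =>
        hold v (h.caro x h1 hxo v (hA.1 hv')), fun h2 => ?_⟩)
      have h3 := card_insert_le x A
      rw [h2, hFc] at h3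
      omega
    · -- full2
      intro x hx hxo hx1 A hA hv
      obtain ⟨h1, h2⟩ := hfirst x hx1
      rw [cin x h1] at hA
      refine mem_fill.2 (Or.inl ⟨h.full2 x h1 hxo h2 A hA fun v hv' =>
        hold v (h.caro x h1 hxo v (hA.1 hv')), fun h2 => ?_⟩)
      have h3 := card_lt_card hA
      rw [h2, hFc, h.carc x h1 hxo] at h3
      omega
    · -- inj
      intro x y hx hy hxo hyo hx1 hy1 hxy
      obtain ⟨h1, h2⟩ := hfirst x hx1
      obtain ⟨h3, h4⟩ := hfirst y hy1
      rw [cin x h1, cin y h3] at hxy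
      exact h.inj x y h1 h3 hxo hyo h2 h4 hxy
    · -- injF
      intro x hx hxo hc
      obtain ⟨k1, k2, -, -⟩ := hcarc x hx hxo
      rcases mem_fill.1 hc with ⟨h1, h2⟩ | h1
      · by_cases h3 : {x} ∈ Γ
        · rw [cin x h3] at h1
          exact h.injF x h3 hxo h1
        · rw [cout x h3] at h1
          exact hcΓ h1
      · have h3 := card_lt_card (hB.inside h1 fun u hu => hold u (k2 u hu))
        omega
  · intro F'
    constructor
    · rintro (⟨h1, h2, h3⟩ | ⟨x, h1, h2, h3, h4, h5⟩)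
      · rcases mem_fill.1 h1 with ⟨h4, -⟩ | h4
        · exact Or.inl ⟨h4, h2, h3⟩
        · exfalso
          have h5 := card_lt_card (hB.inside h4 fun u hu => hold u (h3 u hu))
          omega
      · obtain ⟨h6, h7⟩ := hfirst x h3
        rw [cin x h6] at h4
        refine Or.inr ⟨x, h6, h2, h7, h4, fun v hv => hold v ?_⟩
        rw [← h4] at hv
        exact h.caro x h6 h2 v hv
    · rintro (⟨h1, h2, h3⟩ | ⟨x, h1, h2, h3, h4, h5⟩)
      · exact Or.inl ⟨mem_fill.2 (Or.inl ⟨h1, fun h4 => hx₀o (h3 x₀ (h4 ▸ hx₀))⟩), h2, h3⟩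
      · refine Or.inr ⟨x, (hsing x).2 (Or.inl h1), h2, ?_, ?_, fun v hv => (hsing v).2
          (Or.inl (h5 v hv))⟩
        · rw [cin x h1, rin x h1]
          exact h3
        · rw [cin x h1]
          exact h4

theorem refined_IS {K K' : Finset (Finset U)} (hn : 1 ≤ n) (hK : IsCx K)
    (hp : ∀ F, IsFacet K F → F.card = n + 1) (h : Refined K K') :
    ∃ car rdg : U → Finset U, IS n (fun v => {v} ∈ K) car rdg K' ∧
      (∀ v, {v} ∈ K → {v} ∈ K') ∧
      ∀ F, Comp n (fun v => {v} ∈ K) car rdg K' F ↔ IsFacet K F := by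
  induction h with
  | refl =>
    have hsub : ∀ σ ∈ K, ∀ x ∈ σ, {x} ∈ K := fun σ hσ x hx =>
      hK.2 _ hσ _ (singleton_subset_iff.2 hx)
    refine ⟨fun _ => ∅, fun _ => ∅, ⟨hK, ?_, ?_, fun x hx hxo => absurd hx hxo,
      fun x hx hxo => absurd hx hxo, fun x hx hxo => absurd hx hxo,
      fun x hx hxo => absurd hx hxo, fun σ hσ x hx y hy hxo => absurd (hsub σ hσ x hx) hxo,
      fun σ hσ x hx y hy hxo => absurd (hsub σ hσ x hx) hxo,
      fun σ hσ x hx y hy hxo => absurd (hsub σ hσ x hx) hxo,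
      fun σ hσ x hx hxo => absurd (hsub σ hσ x hx) hxo, fun x hx hxo => absurd hx hxo,
      fun x hx hxo => absurd hx hxo, fun x y hx hy hxo => absurd hx hxo,
      fun x hx hxo => absurd hx hxo⟩, fun v hv => hv, ?_⟩
    · intro σ hσ
      obtain ⟨τ, h1, h2⟩ := exists_facet hσ
      exact ⟨τ, h1.1, h2, hp τ h1⟩
    · intro σ hσ
      obtain ⟨τ, h1, h2⟩ := exists_facet hσ
      rw [← hp τ h1]
      exact card_le_card h2
    · intro F
      constructor
      · rintro (⟨h1, h2, -⟩ | ⟨x, h1, h2, -⟩)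
        · obtain ⟨τ, h3, h4⟩ := exists_facet h1
          have h5 : F = τ := eq_of_subset_of_card_le h4 (by rw [hp τ h3, h2])
          rw [h5]
          exact h3
        · exact absurd h1 h2
      · intro hF
        exact Or.inl ⟨hF.1, hp F hF, fun u hu => hsub F hF.1 u hu⟩
  | stack Γ F w h hF hw ih =>
    obtain ⟨car, rdg, h1, h2, h3⟩ := ih
    obtain ⟨car', rdg', h4, h5⟩ := h1.stack hn h2 hF hw
    refine ⟨car', rdg', h4, ?_, fun F' => (h5 F').trans (h3 F')⟩
    intro v hv
    refine mem_stack.2 (Or.inl ⟨h2 v hv, fun h6 => ?_⟩)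
    obtain ⟨τ, h7, h8, h9⟩ := h1.pure F hF.1
    have h10 := hF.2 τ h7 h8
    have : ({v} : Finset U).card = n + 1 := by rw [h6, ← h10, h9]
    rw [card_singleton] at this
    omega
  | fill Γ F B h hF hx hB ih =>
    obtain ⟨car, rdg, h1, h2, h3⟩ := ih
    obtain ⟨car', rdg', h4, h5⟩ := h1.fill hn h2 hF hx hB
    refine ⟨car', rdg', h4, ?_, fun F' => (h5 F').trans (h3 F')⟩
    intro v hv
    refine mem_fill.2 (Or.inl ⟨h2 v hv, fun h6 => ?_⟩)
    obtain ⟨τ, h7, h8, h9⟩ := h1.pure F hF.1
    have h10 := hF.2 τ h7 h8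
    have : ({v} : Finset U).card = n + 1 := by rw [h6, ← h10, h9]
    rw [card_singleton] at this
    omega

theorem empty_mem_of_vd {K : Finset (Finset U)} (h : VertexDecomposable K) : ∅ ∈ K := by
  cases h with
  | simplex F => exact empty_mem_powerset F
  | shed _ v hK' => exact hK'.1

/-- If a complex obtained from `K` by stackings and fillings is vertex-decomposable,
then `K` has a shelling order. -/
theorem sh_of_refined {K K' : Finset (Finset U)} (hK : IsCx K) (hst : Refined K K')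
    (h : VertexDecomposable K') : IsPure K ∧ ∃ l : List (Finset U), l.Nodup ∧
      (∀ F, F ∈ l ↔ IsFacet K F) ∧ Sh l := by
  classical
  have hpure : IsPure K := by
    rcases pure_of_refined hst hK with rfl | ⟨-, h1⟩
    · exfalso
      exact notMem_empty _ (empty_mem_of_vd h)
    · exact h1 h.pure
  obtain ⟨F0, hF0, -⟩ := exists_facet hK.1
  have hm : ∀ F, IsFacet K F → F.card = F0.card := fun F hF => hpure F F0 hF hF0
  refine ⟨hpure, ?_⟩
  rcases Nat.lt_or_ge 1 F0.card with h2 | h2
  · obtain ⟨n, hn⟩ : ∃ n, F0.card = n + 1 + 1 := ⟨F0.card - 2, by omega⟩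
    obtain ⟨car, rdg, h3, -, h4⟩ := refined_IS (n := n + 1) (by omega) hK
      (fun F hF => (hm F hF).trans hn) hst
    obtain ⟨l, h5, h6, h7⟩ := main_ind h n car rdg h3
    exact ⟨l, h5, fun F => (h6 F).trans (h4 F), h7⟩
  · rcases Nat.lt_or_ge 0 F0.card with h3 | h3
    · refine ⟨(K.filter (fun F => IsFacet K F)).toList, nodup_toList _, ?_, ?_⟩
      · intro F
        rw [mem_toList, mem_filter]
        exact ⟨fun h => h.2, fun h => ⟨h.1, h⟩⟩
      · refine sh_of_card_one _ (nodup_toList _) ?_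
        intro F hF
        rw [mem_toList, mem_filter] at hF
        rw [hm F hF.2]
        omega
    · have h4 : ∀ F, IsFacet K F ↔ F = ∅ := by
        intro F
        constructor
        · intro hF
          rw [← card_eq_zero, hm F hF]
          omega
        · rintro rfl
          have h5 : F0 = ∅ := card_eq_zero.1 (by omega)
          rw [← h5]
          exact hF0
      refine ⟨[∅], List.nodup_singleton _, ?_, ?_⟩
      · intro F
        rw [List.mem_singleton, h4]
      · have := Sh.snoc [] (∅ : Finset U) Sh.nil (fun G hG => by simp at hG)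
        simpa using this

section transport

variable {V : Type} [DecidableEq V] {f : V → U}

/-- the preimage of a set -/
noncomputable def pre (hf : Function.Injective f) (X : Finset U) : Finset V :=
  X.preimage f hf.injOn

theorem mem_pre (hf : Function.Injective f) {X : Finset U} {v : V} : v ∈ pre hf X ↔ f v ∈ X := by
  unfold pre
  rw [mem_preimage]

theorem pre_image (hf : Function.Injective f) (A : Finset V) : pre hf (A.image f) = A := by
  ext v
  rw [mem_pre, mem_image]
  exact ⟨fun ⟨w, h1, h2⟩ => hf h2 ▸ h1, fun h => ⟨v, h, rfl⟩⟩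

theorem image_pre (hf : Function.Injective f) {X : Finset U} {A : Finset V} (h : X ⊆ A.image f) :
    (pre hf X).image f = X := by
  ext u
  rw [mem_image]
  constructor
  · rintro ⟨v, h1, rfl⟩
    exact (mem_pre hf).1 h1
  · intro hu
    obtain ⟨v, -, rfl⟩ := mem_image.1 (h hu)
    exact ⟨v, (mem_pre hf).2 hu, rfl⟩

theorem card_pre (hf : Function.Injective f) {X : Finset U} {A : Finset V} (h : X ⊆ A.image f) :
    (pre hf X).card = X.card := by
  conv_rhs => rw [← image_pre hf h]
  rw [card_image_of_injective _ hf]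

theorem sh_pre (hf : Function.Injective f) {l : List (Finset U)} (hl : Sh l)
    (him : ∀ F ∈ l, ∃ A : Finset V, F = A.image f) : Sh (l.map (pre hf)) := by
  induction hl with
  | nil => exact Sh.nil
  | snoc l F hl hF ih =>
    rw [List.map_append]
    refine Sh.snoc _ _ (ih fun G hG => him G (List.mem_append_left _ hG)) ?_
    obtain ⟨A, hA⟩ := him F (List.mem_append_right _ (List.mem_singleton_self F))
    intro G hG
    obtain ⟨G₁, hG₁, rfl⟩ := List.mem_map.1 hG
    obtain ⟨R, h1, h2, h3, G', h4, h5⟩ := hF G₁ hG₁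
    refine ⟨pre hf R, ?_, ?_, ?_, pre hf G', List.mem_map.2 ⟨G', h4, rfl⟩, ?_⟩
    · intro v hv
      rw [mem_pre] at hv ⊢
      exact h1 hv
    · rw [card_pre hf (h1.trans hA.subset), card_pre hf hA.subset, h2]
    · intro v hv
      rw [mem_inter, mem_pre, mem_pre] at hv
      rw [mem_pre]
      exact h3 (mem_inter.2 hv)
    · intro v hv
      rw [mem_pre] at hv ⊢
      exact h5 hv

theorem facet_image (hf : Function.Injective f) {K : Finset (Finset V)} {G : Finset V} :
    IsFacet (K.image (fun G => G.image f)) (G.image f) ↔ IsFacet K G := by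
  have hinj : Function.Injective (fun G : Finset V => G.image f) := image_injective hf
  constructor
  · rintro ⟨h1, h2⟩
    obtain ⟨G', h3, h4⟩ := mem_image.1 h1
    have h5 : G' = G := hinj h4
    refine ⟨h5 ▸ h3, fun A hA hGA => hinj (h2 _ (mem_image_of_mem _ hA) (image_subset_image hGA))⟩
  · rintro ⟨h1, h2⟩
    refine ⟨mem_image_of_mem _ h1, fun X hX hGX => ?_⟩
    obtain ⟨A, hA, rfl⟩ := mem_image.1 hX
    have h3 : G ⊆ A := by
      intro v hv
      obtain ⟨w, hw, hwv⟩ := mem_image.1 (hGX (mem_image_of_mem f hv))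
      exact hf hwv ▸ hw
    simp only [h2 A hA h3]

/-- If a complex obtained from a copy of `K` by stackings and fillings is
vertex-decomposable, then `K` is shellable. -/
theorem shellable_of_refined (hf : Function.Injective f) {K : Finset (Finset V)}
    {K' : Finset (Finset U)} (hK : IsCx K) (hst : Refined (K.image (fun G => G.image f)) K')
    (h : VertexDecomposable K') : Shellable K := by
  have hcx : IsCx (K.image (fun G => G.image f)) := by
    refine ⟨mem_image.2 ⟨∅, hK.1, image_empty f⟩, ?_⟩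
    intro σ hσ τ hτ
    obtain ⟨A, hA, rfl⟩ := mem_image.1 hσ
    refine mem_image.2 ⟨pre hf τ, hK.2 A hA _ ?_, image_pre hf hτ⟩
    intro v hv
    rw [mem_pre] at hv
    obtain ⟨w, hw, hwv⟩ := mem_image.1 (hτ hv)
    exact hf hwv ▸ hw
  obtain ⟨hp, l, h1, h2, h3⟩ := sh_of_refined hcx hst h
  have him : ∀ F ∈ l, ∃ A : Finset V, F = A.image f := by
    intro F hF
    obtain ⟨A, -, h4⟩ := mem_image.1 ((h2 F).1 hF).1
    exact ⟨A, h4.symm⟩
  refine ⟨?_, l.map (pre hf), ?_, ?_, (sh_pre hf h3 him).isShelling⟩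
  · intro A B hA hB
    have := hp _ _ ((facet_image hf).2 hA) ((facet_image hf).2 hB)
    rwa [card_image_of_injective _ hf, card_image_of_injective _ hf] at this
  · refine List.Nodup.map_on ?_ h1
    intro X hX Y hY hXY
    obtain ⟨A, rfl⟩ := him X hX
    obtain ⟨B, rfl⟩ := him Y hY
    rw [pre_image, pre_image] at hXY
    rw [hXY]
  · intro F
    rw [List.mem_map]
    constructor
    · rintro ⟨X, hX, rfl⟩
      obtain ⟨A, rfl⟩ := him X hX
      rw [pre_image]
      exact (facet_image hf).1 ((h2 _).1 hX)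
    · intro hF
      exact ⟨F.image f, (h2 _).2 ((facet_image hf).2 hF), pre_image hf F⟩

end transport

section sets

variable {V : Type} [DecidableEq V]

/-- The complex obtained from `K` by stacking the facets in `T`: the facets `F` in `T` are removed,
and for every `F` in `T` a new vertex `w_F = Sum.inr F` is added, together with the faces
`{w_F} ∪ G` for the proper faces `G` of `F`. -/
def stackSet (K T : Finset (Finset V)) : Finset (Finset (V ⊕ Finset V)) :=
  (K \ T).image (fun G => G.image Sum.inl) ∪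
    T.biUnion (fun F => F.ssubsets.image (fun G => insert (Sum.inr F) (G.image Sum.inl)))

theorem mem_stackSet {K T : Finset (Finset V)} {σ : Finset (V ⊕ Finset V)} :
    σ ∈ stackSet K T ↔ (∃ G, (G ∈ K ∧ G ∉ T) ∧ G.image Sum.inl = σ) ∨
      ∃ F, F ∈ T ∧ ∃ G, G ⊂ F ∧ insert (Sum.inr F) (G.image Sum.inl) = σ := by
  unfold stackSet
  simp only [mem_union, mem_image, mem_sdiff, mem_biUnion, mem_ssubsets]

theorem inr_notMem_image (G : Finset V) (F : Finset V) :
    (Sum.inr F : V ⊕ Finset V) ∉ G.image Sum.inl := by simp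

/-- stacking a set of facets is a sequence of facet stackings -/
theorem refined_stackSet {K : Finset (Finset V)} (T : Finset (Finset V))
    (hT : ∀ F ∈ T, IsFacet K F) : Refined (K.image (fun G => G.image Sum.inl)) (stackSet K T) := by
  induction T using Finset.induction_on with
  | empty =>
    have h1 : stackSet K ∅ = K.image (fun G => G.image Sum.inl) := by
      unfold stackSet
      simp
    rw [h1]
    exact Refined.refl
  | insert F T hFT ih =>
    have ih' := ih fun F' hF' => hT F' (mem_insert_of_mem hF')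
    have hF := hT F (mem_insert_self F T)
    have hT' := fun F' hF' => hT F' (mem_insert_of_mem hF')
    have hfac : IsFacet (stackSet K T) (F.image Sum.inl) := by
      refine ⟨mem_stackSet.2 (Or.inl ⟨F, ⟨hF.1, hFT⟩, rfl⟩), ?_⟩
      intro σ hσ hsub
      rcases mem_stackSet.1 hσ with ⟨G, ⟨h1, h2⟩, rfl⟩ | ⟨F', hF', G, hG, rfl⟩
      · have h3 : F ⊆ G := fun v hv => by
          have := hsub (mem_image_of_mem _ hv)
          simpa using this
        rw [hF.2 G h1 h3]
      · exfalso
        have h3 : F ⊆ G := fun v hv => by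
          have := hsub (mem_image_of_mem _ hv)
          simpa using this
        have h4 := hF.2 F' (hT' F' hF').1 (h3.trans hG.1)
        rw [h4] at hG
        exact hG.2 h3
    have hfresh : {(Sum.inr F : V ⊕ Finset V)} ∉ stackSet K T := by
      intro h1
      rcases mem_stackSet.1 h1 with ⟨G, -, h2⟩ | ⟨F', hF', G, hG, h2⟩
      · exact inr_notMem_image G F (h2 ▸ mem_singleton_self _)
      · have h3 : (Sum.inr F' : V ⊕ Finset V) ∈ ({Sum.inr F} : Finset (V ⊕ Finset V)) :=
          h2 ▸ mem_insert_self _ _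
        rw [mem_singleton, Sum.inr.injEq] at h3
        exact hFT (h3 ▸ hF')
    have heq : stackSet K (insert F T) = stack (stackSet K T) (F.image Sum.inl) (Sum.inr F) := by
      ext σ
      rw [mem_stack, mem_stackSet, mem_stackSet]
      constructor
      · rintro (⟨G, ⟨h1, h2⟩, rfl⟩ | ⟨F', hF', G, hG, rfl⟩)
        · rw [mem_insert, not_or] at h2
          exact Or.inl ⟨Or.inl ⟨G, ⟨h1, h2.2⟩, rfl⟩,
            fun h3 => h2.1 (image_injective Sum.inl_injective h3)⟩
        · rcases mem_insert.1 hF' with rfl | hF'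
          · refine Or.inr ⟨G.image Sum.inl, ?_, rfl⟩
            exact (image_ssubset_image Sum.inl_injective).2 hG
          · refine Or.inl ⟨Or.inr ⟨F', hF', G, hG, rfl⟩, fun h3 => ?_⟩
            exact inr_notMem_image F F' (h3 ▸ mem_insert_self _ _)
      · rintro (⟨⟨G, ⟨h1, h2⟩, rfl⟩ | ⟨F', hF', G, hG, rfl⟩, h4⟩ | ⟨H, hH, rfl⟩)
        · refine Or.inl ⟨G, ⟨h1, ?_⟩, rfl⟩
          rw [mem_insert, not_or]
          exact ⟨fun h5 => h4 (by rw [h5]), h2⟩
        · exact Or.inr ⟨F', mem_insert_of_mem hF', G, hG, rfl⟩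
        · obtain ⟨G, hG⟩ : ∃ G : Finset V, G.image Sum.inl = H :=
            ⟨_, image_pre Sum.inl_injective hH.1⟩
          subst hG
          refine Or.inr ⟨F, mem_insert_self _ _, G, ?_, rfl⟩
          exact (image_ssubset_image Sum.inl_injective).1 hH
    rw [heq]
    exact Refined.stack _ _ _ ih' hfac hfresh

open Classical in
theorem stackAll_eq (K : Finset (Finset V)) :
    Pool.Agent.H933R3.stackAll K = stackSet K (K.filter (fun F => IsFacet K F)) := by
  ext σ
  unfold Pool.Agent.H933R3.stackAll stackSet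
  rw [filter_not]

theorem shellable_of_stackSet {K T : Finset (Finset V)} (hK : IsCx K)
    (hT : ∀ F ∈ T, IsFacet K F) (h : VertexDecomposable (stackSet K T)) : Shellable K :=
  shellable_of_refined Sum.inl_injective hK (refined_stackSet T hT) h

theorem shellable_of_stackAll {K : Finset (Finset V)} (hK : IsCx K)
    (h : VertexDecomposable (Pool.Agent.H933R3.stackAll K)) : Shellable K := by
  classical
  rw [stackAll_eq] at h
  exact shellable_of_stackSet hK (fun F hF => (mem_filter.1 hF).2) h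

end sets

end Pool.Agent.Y279.St
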