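import Mathlib
import Pool.Agent.Y279.St.Main

/-! Replacing facets by fillings of their boundaries: if the result is vertex-decomposable, then the
original complex is vertex-decomposable. -/

set_option autoImplicit false

namespace Pool.Agent.Y279.St

open Finset
open Pool.Agent.H933R3 (IsCx IsFacet IsPure VertexDecomposable mem_del' mem_link'
  exists_facet shed_pure)

variable {U : Type} [DecidableEq U]

/-- the complex generated by a set of simplices -/
def gen (𝓕 : Finset (Finset U)) : Finset (Finset U) := 𝓕.biUnion powerset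

theorem mem_gen {𝓕 : Finset (Finset U)} {σ : Finset U} : σ ∈ gen 𝓕 ↔ ∃ H ∈ 𝓕, σ ⊆ H := by
  simp [gen]

theorem cx_gen {𝓕 : Finset (Finset U)} (h : 𝓕.Nonempty) : IsCx (gen 𝓕) := by
  obtain ⟨H, hH⟩ := h
  refine ⟨mem_gen.2 ⟨H, hH, empty_subset H⟩, fun σ hσ τ hτ => ?_⟩
  obtain ⟨G, hG, hσG⟩ := mem_gen.1 hσ
  exact mem_gen.2 ⟨G, hG, hτ.trans hσG⟩

theorem facet_gen {𝓕 : Finset (Finset U)} {F : Finset U} (h : IsFacet (gen 𝓕) F) : F ∈ 𝓕 := by
  obtain ⟨H, hH, hFH⟩ := mem_gen.1 h.1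
  rw [← h.2 H (mem_gen.2 ⟨H, hH, Subset.refl H⟩) hFH]
  exact hH

theorem vd_zero {S : Finset (Finset U)} (hS : S.Nonempty) (h1 : ∀ F ∈ S, F.card = 1) :
    VertexDecomposable (gen S) := by
  induction S using Finset.induction_on with
  | empty => exact absurd hS not_nonempty_empty
  | insert F S hF ih =>
    by_cases hSe : S.Nonempty
    · have ih' := ih hSe fun G hG => h1 G (mem_insert_of_mem hG)
      have hF1 := h1 F (mem_insert_self F S)
      obtain ⟨v, rfl⟩ := card_eq_one.1 hF1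
      have hcx : IsCx (gen (insert {v} S)) := cx_gen (insert_nonempty _ _)
      have hvS : ∀ G ∈ S, v ∉ G := by
        intro G hG hv
        obtain ⟨u, rfl⟩ := card_eq_one.1 (h1 G (mem_insert_of_mem hG))
        rw [mem_singleton] at hv
        exact hF (hv ▸ hG)
      have hl : Pool.Agent.H933R3.link (gen (insert {v} S)) v = (∅ : Finset U).powerset := by
        ext σ
        rw [mem_link' hcx, mem_powerset, subset_empty]
        constructor
        · rintro ⟨h2, h3⟩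
          obtain ⟨G, hG, hsub⟩ := mem_gen.1 h3
          have h4 := card_le_card hsub
          rw [h1 G hG, card_insert_of_notMem h2] at h4
          exact card_eq_zero.1 (by omega)
        · rintro rfl
          exact ⟨notMem_empty v, mem_gen.2 ⟨{v}, mem_insert_self _ _, Subset.refl _⟩⟩
      have hd : Pool.Agent.H933R3.del (gen (insert {v} S)) v = gen S := by
        ext σ
        rw [mem_del', mem_gen, mem_gen]
        constructor
        · rintro ⟨⟨G, hG, hsub⟩, hv⟩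
          rcases mem_insert.1 hG with rfl | hG
          · obtain ⟨H, hH⟩ := hSe
            refine ⟨H, hH, fun u hu => ?_⟩
            have := mem_singleton.1 (hsub hu)
            exact absurd (this ▸ hu) hv
          · exact ⟨G, hG, hsub⟩
        · rintro ⟨G, hG, hsub⟩
          exact ⟨⟨G, mem_insert_of_mem hG, hsub⟩, fun hv => hvS G hG (hsub hv)⟩
      refine VertexDecomposable.shed _ v hcx ?_ ?_ ?_ ?_ ?_
      · intro A B hA hB
        rw [h1 A (facet_gen hA), h1 B (facet_gen hB)]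
      · exact mem_gen.2 ⟨{v}, mem_insert_self _ _, Subset.refl _⟩
      · rw [hl]
        exact VertexDecomposable.simplex ∅
      · rw [hd]
        exact ih'
      · intro F hFl hFd
        rw [hd] at hFd
        rw [hl] at hFl
        have h2 : F = ∅ := subset_empty.1 (mem_powerset.1 hFl.1)
        have h3 := h1 F (mem_insert_of_mem (facet_gen hFd))
        rw [h2, card_empty] at h3
        omega
    · rw [not_nonempty_iff_eq_empty] at hSe
      subst hSe
      have : gen (insert F ∅) = F.powerset := by simp [gen]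
      rw [this]
      exact VertexDecomposable.simplex F

/-- Block structures: `𝓕` is a set of simplices on old vertices, every new vertex `x` belongs to a
simplex `blk x` of `𝓕`. -/
structure BS (n : ℕ) (old : U → Prop) (𝓕 : Finset (Finset U)) (blk : U → Finset U)
    (Γ : Finset (Finset U)) : Prop where
  cx : IsCx Γ
  pure : ∀ σ ∈ Γ, ∃ τ ∈ Γ, σ ⊆ τ ∧ τ.card = n + 1
  max : ∀ σ ∈ Γ, σ.card ≤ n + 1
  card : ∀ H ∈ 𝓕, H.card = n + 1
  isOld : ∀ H ∈ 𝓕, ∀ u ∈ H, old u
  bdry : ∀ H ∈ 𝓕, ∀ A, A ⊂ H → A ∈ Γ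
  blkm : ∀ x, {x} ∈ Γ → ¬ old x → blk x ∈ 𝓕
  same : ∀ σ ∈ Γ, ∀ x ∈ σ, ∀ y ∈ σ, ¬ old x → ¬ old y → blk x = blk y
  sub : ∀ σ ∈ Γ, ∀ x ∈ σ, ∀ u ∈ σ, ¬ old x → old u → u ∈ blk x
  oldf : ∀ σ ∈ Γ, (∀ u ∈ σ, old u) → ∃ H ∈ 𝓕, σ ⊆ H

variable {n : ℕ} {old : U → Prop} {𝓕 : Finset (Finset U)} {blk : U → Finset U}
  {Γ : Finset (Finset U)}

theorem BS.vtx (h : BS n old 𝓕 blk Γ) {σ : Finset U} (hσ : σ ∈ Γ) {x : U} (hx : x ∈ σ) :
    {x} ∈ Γ := h.cx.2 _ hσ _ (singleton_subset_iff.2 hx)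

/-- The key lemma: after the deletion of an old vertex `w`, the ridge `G₁ \ w` lies in another
simplex, unless `G₁` is the only one. -/
theorem BS.key (h : BS n old 𝓕 blk Γ) {w : U}
    (hvd : VertexDecomposable (Pool.Agent.H933R3.del Γ w))
    (hp : ∀ σ ∈ Pool.Agent.H933R3.del Γ w, ∃ τ ∈ Pool.Agent.H933R3.del Γ w,
      σ ⊆ τ ∧ τ.card = n + 1) {G₁ : Finset U} (hG₁ : G₁ ∈ 𝓕) (hw₁ : w ∈ G₁) :
    (∃ H ∈ 𝓕, w ∉ H ∧ G₁.erase w ⊆ H) ∨ ∀ G ∈ 𝓕, G = G₁ := by
  by_contra hcon0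
  rw [not_or] at hcon0
  obtain ⟨hcon, h2⟩ := hcon0
  push Not at hcon h2
  obtain ⟨G₂, hG₂, hne⟩ := h2
  set R := G₁.erase w with hR
  have hRc : R.card = n := by
    rw [hR, card_erase_of_mem hw₁, h.card G₁ hG₁]
    rfl
  have hwR : w ∉ R := notMem_erase w G₁
  have hRo : ∀ u ∈ R, old u := fun u hu => h.isOld G₁ hG₁ u (mem_erase.1 hu).2
  set P : Finset U → Prop := fun τ => ∃ x ∈ τ, ¬ old x ∧ w ∈ blk x ∧ (blk x).erase w = R with hP
  have step : ∀ τ ∈ Pool.Agent.H933R3.del Γ w, τ.card = n + 1 → R ⊆ τ → P τ := by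
    intro τ hτ hc hsub
    obtain ⟨z, hz, hzR⟩ : ∃ z ∈ τ, z ∉ R := exists_of_ssubset
      ⟨hsub, fun h' => by have := card_le_card h'; omega⟩
    have hτe : insert z R = τ := eq_of_subset_of_card_le (insert_subset hz hsub)
      (by rw [card_insert_of_notMem hzR]; omega)
    have hτ' := mem_del'.1 hτ
    by_cases hzo : old z
    · exfalso
      obtain ⟨H, hH, hτH⟩ := h.oldf τ hτ'.1 (by
        intro u hu
        rw [← hτe, mem_insert] at hu
        rcases hu with rfl | hu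
        · exact hzo
        · exact hRo u hu)
      have hH' : τ = H := eq_of_subset_of_card_le hτH (by rw [h.card H hH, hc])
      exact hcon H hH (hH' ▸ hτ'.2) (hH' ▸ hsub)
    · have h3 : R ⊆ blk z := fun u hu => h.sub τ hτ'.1 z hz u (hsub hu) hzo (hRo u hu)
      have h4 := h.blkm z (h.vtx hτ'.1 hz) hzo
      have hwz : w ∈ blk z := by
        by_contra hwz
        exact hcon _ h4 hwz h3
      refine ⟨z, hz, hzo, hwz, (eq_of_subset_of_card_le ?_ ?_).symm⟩
      · intro u hu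
        rw [mem_erase]
        exact ⟨fun h5 => hwR (h5 ▸ hu), h3 hu⟩
      · rw [card_erase_of_mem hwz, h.card _ h4, hRc]
        rfl
  have hRΓ : R ∈ Pool.Agent.H933R3.del Γ w :=
    mem_del'.2 ⟨h.bdry G₁ hG₁ R (erase_ssubset hw₁), hwR⟩
  have hstart : ∃ τ ∈ Pool.Agent.H933R3.del Γ w, τ.card = n + 1 ∧ P τ := by
    obtain ⟨τ, h3, h4, h5⟩ := hp R hRΓ
    exact ⟨τ, h3, h5, step τ h3 h5 h4⟩
  have hadj : ∀ τ ∈ Pool.Agent.H933R3.del Γ w, ∀ τ' ∈ Pool.Agent.H933R3.del Γ w,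
      τ.card = n + 1 → τ'.card = n + 1 → P τ → (τ ∩ τ').card = n → P τ' := by
    rintro τ hτ τ' hτ' hc hc' ⟨x, hx, hxo, hwx, hxR⟩ hn
    by_cases hnew : ∃ y ∈ τ ∩ τ', ¬ old y
    · obtain ⟨y, hy, hyo⟩ := hnew
      rw [mem_inter] at hy
      have h3 := h.same τ (mem_del'.1 hτ).1 x hx y hy.1 hxo hyo
      exact ⟨y, hy.2, hyo, h3 ▸ hwx, h3 ▸ hxR⟩
    · push Not at hnew
      have hI : τ ∩ τ' = R := by
        refine eq_of_subset_of_card_le ?_ (by omega)
        intro u hu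
        rw [← hxR, mem_erase]
        refine ⟨fun h3 => (mem_del'.1 hτ).2 (h3 ▸ (mem_inter.1 hu).1), ?_⟩
        exact h.sub τ (mem_del'.1 hτ).1 x hx u (mem_inter.1 hu).1 hxo (hnew u hu)
      exact step τ' hτ' hc' (hI ▸ inter_subset_right)
  have hall := strongly_connected hvd n hp
    (fun σ hσ => h.max σ (mem_del'.1 hσ).1) P hstart hadj
  -- a ridge of `G₂` which avoids `w`
  obtain ⟨R', hR'1, hR'c, hwR', hR'2⟩ : ∃ R' : Finset U, R' ⊂ G₂ ∧ R'.card = n ∧ w ∉ R' ∧
      (w ∈ G₂ → R' = G₂.erase w) := by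
    by_cases hw₂ : w ∈ G₂
    · exact ⟨G₂.erase w, erase_ssubset hw₂, by
        rw [card_erase_of_mem hw₂, h.card G₂ hG₂]; rfl, notMem_erase _ _, fun _ => rfl⟩
    · obtain ⟨v, hv⟩ : G₂.Nonempty := card_pos.1 (by rw [h.card G₂ hG₂]; omega)
      exact ⟨G₂.erase v, erase_ssubset hv, by
        rw [card_erase_of_mem hv, h.card G₂ hG₂]; rfl,
        fun h3 => hw₂ (mem_erase.1 h3).2, fun h3 => absurd h3 hw₂⟩
  obtain ⟨τ, h3, h4, h5⟩ := hp R' (mem_del'.2 ⟨h.bdry G₂ hG₂ R' hR'1, hwR'⟩)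
  obtain ⟨x, hx, hxo, hwx, hxR⟩ := hall τ h3 h5
  have h6 : R' = R := by
    refine eq_of_subset_of_card_le ?_ (by omega)
    intro u hu
    rw [← hxR, mem_erase]
    exact ⟨fun h7 => hwR' (h7 ▸ hu), h.sub τ (mem_del'.1 h3).1 x hx u (h4 hu) hxo
      (h.isOld G₂ hG₂ u (hR'1.1 hu))⟩
  by_cases hw₂ : w ∈ G₂
  · apply hne
    rw [← insert_erase hw₂, ← hR'2 hw₂, h6, hR, insert_erase hw₁]
  · exact hcon G₂ hG₂ hw₂ (h6 ▸ hR'1.1)

theorem BS.delNew (h : BS n old 𝓕 blk Γ) {x : U} (hxo : ¬ old x)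
    (hp : ∀ σ ∈ Pool.Agent.H933R3.del Γ x, ∃ τ ∈ Pool.Agent.H933R3.del Γ x,
      σ ⊆ τ ∧ τ.card = n + 1) : BS n old 𝓕 blk (Pool.Agent.H933R3.del Γ x) where
  cx := h.cx.del' x
  pure := hp
  max := fun σ hσ => h.max σ (mem_del'.1 hσ).1
  card := h.card
  isOld := h.isOld
  bdry := fun H hH A hA => mem_del'.2 ⟨h.bdry H hH A hA,
    fun hx => hxo (h.isOld H hH x (hA.1 hx))⟩
  blkm := fun y hy => h.blkm y (mem_del'.1 hy).1
  same := fun σ hσ => h.same σ (mem_del'.1 hσ).1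
  sub := fun σ hσ => h.sub σ (mem_del'.1 hσ).1
  oldf := fun σ hσ => h.oldf σ (mem_del'.1 hσ).1

open Classical in
theorem BS.delOld (h : BS n old 𝓕 blk Γ) {w : U}
    (hp : ∀ σ ∈ Pool.Agent.H933R3.del Γ w, ∃ τ ∈ Pool.Agent.H933R3.del Γ w,
      σ ⊆ τ ∧ τ.card = n + 1) {c : Finset U → Finset U}
    (hc : ∀ G ∈ 𝓕, w ∈ G → c G ∈ 𝓕 ∧ w ∉ c G ∧ G.erase w ⊆ c G) :
    BS n old (𝓕.filter (fun H => w ∉ H)) (fun x => if w ∈ blk x then c (blk x) else blk x)
      (Pool.Agent.H933R3.del Γ w) where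
  cx := h.cx.del' w
  pure := hp
  max := fun σ hσ => h.max σ (mem_del'.1 hσ).1
  card := fun H hH => h.card H (mem_filter.1 hH).1
  isOld := fun H hH => h.isOld H (mem_filter.1 hH).1
  bdry := fun H hH A hA => mem_del'.2 ⟨h.bdry H (mem_filter.1 hH).1 A hA,
    fun hx => (mem_filter.1 hH).2 (hA.1 hx)⟩
  blkm := by
    intro y hy hyo
    have h1 := h.blkm y (mem_del'.1 hy).1 hyo
    rw [mem_filter]
    split_ifs with h2
    · exact ⟨(hc _ h1 h2).1, (hc _ h1 h2).2.1⟩
    · exact ⟨h1, h2⟩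
  same := by
    intro σ hσ x hx y hy hxo hyo
    rw [h.same σ (mem_del'.1 hσ).1 x hx y hy hxo hyo]
  sub := by
    intro σ hσ x hx u hu hxo huo
    have h1 := h.blkm x (h.vtx (mem_del'.1 hσ).1 hx) hxo
    have h2 := h.sub σ (mem_del'.1 hσ).1 x hx u hu hxo huo
    have huw : u ≠ w := fun h3 => (mem_del'.1 hσ).2 (h3 ▸ hu)
    split_ifs with h3
    · exact (hc _ h1 h3).2.2 (mem_erase.2 ⟨huw, h2⟩)
    · exact h2
  oldf := by
    intro σ hσ hσo
    obtain ⟨H, hH, hsub⟩ := h.oldf σ (mem_del'.1 hσ).1 hσo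
    by_cases hw : w ∈ H
    · refine ⟨c H, mem_filter.2 ⟨(hc H hH hw).1, (hc H hH hw).2.1⟩, fun u hu =>
        (hc H hH hw).2.2 (mem_erase.2 ⟨fun h3 => (mem_del'.1 hσ).2 (h3 ▸ hu), hsub hu⟩)⟩
    · exact ⟨H, mem_filter.2 ⟨hH, hw⟩, hsub⟩

theorem BS.link (h : BS (n + 1) old 𝓕 blk Γ) {w : U} (hw : {w} ∈ Γ) (hwo : old w) :
    BS n old ((𝓕.filter (fun H => w ∈ H)).image (fun H => H.erase w))
      (fun x => (blk x).erase w) (Pool.Agent.H933R3.link Γ w) where
  cx := h.cx.link' hw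
  pure := by
    intro σ hσ
    rw [mem_link' h.cx] at hσ
    obtain ⟨τ, hτ, hsub, hcard⟩ := h.pure _ hσ.2
    have hvτ : w ∈ τ := hsub (mem_insert_self _ _)
    refine ⟨τ.erase w, ?_, ?_, ?_⟩
    · rw [mem_link' h.cx, insert_erase hvτ]
      exact ⟨notMem_erase _ _, hτ⟩
    · intro x hx
      rw [mem_erase]
      exact ⟨fun hxv => hσ.1 (hxv ▸ hx), hsub (mem_insert_of_mem hx)⟩
    · rw [card_erase_of_mem hvτ, hcard]
      rfl
  max := by
    intro σ hσ
    rw [mem_link' h.cx] at hσ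
    have h1 := h.max _ hσ.2
    rw [card_insert_of_notMem hσ.1] at h1
    omega
  card := by
    intro H hH
    obtain ⟨G, hG, rfl⟩ := mem_image.1 hH
    rw [mem_filter] at hG
    rw [card_erase_of_mem hG.2, h.card G hG.1]
    rfl
  isOld := by
    intro H hH u hu
    obtain ⟨G, hG, rfl⟩ := mem_image.1 hH
    exact h.isOld G (mem_filter.1 hG).1 u (mem_erase.1 hu).2
  bdry := by
    intro H hH A hA
    obtain ⟨G, hG, rfl⟩ := mem_image.1 hH
    rw [mem_filter] at hG
    have hwA : w ∉ A := fun h1 => (mem_erase.1 (hA.1 h1)).1 rfl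
    rw [mem_link' h.cx]
    refine ⟨hwA, h.bdry G hG.1 _ ⟨insert_subset hG.2 fun u hu => (mem_erase.1 (hA.1 hu)).2,
      fun hcon => hA.2 ?_⟩⟩
    intro u hu
    rw [mem_erase] at hu
    exact (mem_insert.1 (hcon hu.2)).resolve_left hu.1
  blkm := by
    intro x hx hxo
    rw [mem_link' h.cx] at hx
    have h1 : {x} ∈ Γ := h.cx.2 _ hx.2 _ (by simp)
    have h2 := h.sub _ hx.2 x (by simp) w (by simp) hxo hwo
    exact mem_image.2 ⟨blk x, mem_filter.2 ⟨h.blkm x h1 hxo, h2⟩, rfl⟩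
  same := by
    intro σ hσ x hx y hy hxo hyo
    rw [mem_link' h.cx] at hσ
    rw [h.same _ hσ.2 x (mem_insert_of_mem hx) y (mem_insert_of_mem hy) hxo hyo]
  sub := by
    intro σ hσ x hx u hu hxo huo
    rw [mem_link' h.cx] at hσ
    rw [mem_erase]
    exact ⟨fun huv => hσ.1 (huv ▸ hu),
      h.sub _ hσ.2 x (mem_insert_of_mem hx) u (mem_insert_of_mem hu) hxo huo⟩
  oldf := by
    intro σ hσ hσo
    rw [mem_link' h.cx] at hσ
    obtain ⟨H, hH, hsub⟩ := h.oldf _ hσ.2 (by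
      intro u hu
      rcases mem_insert.1 hu with rfl | hu
      · exact hwo
      · exact hσo u hu)
    refine ⟨H.erase w, mem_image.2 ⟨H, mem_filter.2 ⟨hH, hsub (mem_insert_self _ _)⟩, rfl⟩, ?_⟩
    intro u hu
    rw [mem_erase]
    exact ⟨fun h1 => hσ.1 (h1 ▸ hu), hsub (mem_insert_of_mem hu)⟩

/-- If a complex with a block structure is vertex-decomposable, then so is the complex generated by
the simplices. -/
theorem vd_of_blocks (hvd : VertexDecomposable Γ) : ∀ (n : ℕ) (𝓕 : Finset (Finset U))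
    (blk : U → Finset U), BS (n + 1) old 𝓕 blk Γ → 𝓕.Nonempty → VertexDecomposable (gen 𝓕) := by
  classical
  induction hvd with
  | simplex σ =>
    intro n 𝓕 blk h hne
    have h1 : ∀ H ∈ 𝓕, H = σ := by
      intro H hH
      have hc := h.card H hH
      have hsub : H ⊆ σ := by
        intro u hu
        have h2 : ({u} : Finset U) ⊂ H := by
          refine ⟨singleton_subset_iff.2 hu, fun h3 => ?_⟩
          have := card_le_card h3
          rw [card_singleton] at this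
          omega
        exact singleton_subset_iff.1 (mem_powerset.1 (h.bdry H hH _ h2))
      exact eq_of_subset_of_card_le hsub
        (by rw [hc]; exact h.max σ (mem_powerset.2 (Subset.refl σ)))
    have h2 : gen 𝓕 = σ.powerset := by
      obtain ⟨H, hH⟩ := hne
      ext τ
      rw [mem_gen, mem_powerset]
      constructor
      · rintro ⟨G, hG, hsub⟩
        exact h1 G hG ▸ hsub
      · intro hsub
        exact ⟨H, hH, by rw [h1 H hH]; exact hsub⟩
    rw [h2]
    exact VertexDecomposable.simplex σ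
  | shed Γ x hK hpure hx hl hd hs ihl ihd =>
    intro n 𝓕 blk h hne
    have hp := shed_pure h.cx h.pure h.max hx hd.pure hs
    by_cases hxo : old x
    · -- an old vertex
      by_cases hB : ∃ G₁, ∀ G ∈ 𝓕, G = G₁
      · obtain ⟨G₁, hG₁⟩ := hB
        have h2 : gen 𝓕 = G₁.powerset := by
          obtain ⟨H, hH⟩ := hne
          ext τ
          rw [mem_gen, mem_powerset]
          constructor
          · rintro ⟨G, hG, hsub⟩
            exact hG₁ G hG ▸ hsub
          · intro hsub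
            exact ⟨H, hH, by rw [hG₁ H hH]; exact hsub⟩
        rw [h2]
        exact VertexDecomposable.simplex G₁
      · have hA : ∀ G ∈ 𝓕, x ∈ G → ∃ H ∈ 𝓕, x ∉ H ∧ G.erase x ⊆ H := by
          intro G hG hxG
          rcases h.key hd hp hG hxG with h1 | h1
          · exact h1
          · exact absurd ⟨G, h1⟩ hB
        have hA' : ∀ G : Finset U, ∃ H : Finset U, G ∈ 𝓕 → x ∈ G →
            H ∈ 𝓕 ∧ x ∉ H ∧ G.erase x ⊆ H := by
          intro G
          by_cases hG : G ∈ 𝓕 ∧ x ∈ G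
          · obtain ⟨H, h1, h2, h3⟩ := hA G hG.1 hG.2
            exact ⟨H, fun _ _ => ⟨h1, h2, h3⟩⟩
          · exact ⟨∅, fun h1 h2 => absurd ⟨h1, h2⟩ hG⟩
        choose c hc using hA'
        have hc' : ∀ G ∈ 𝓕, x ∈ G → c G ∈ 𝓕 ∧ x ∉ c G ∧ G.erase x ⊆ c G :=
          fun G h1 h2 => hc G h1 h2
        obtain ⟨H₀, hH₀, hxH₀⟩ := h.oldf {x} hx (by
          intro u hu
          rw [mem_singleton] at hu
          rw [hu]
          exact hxo)
        have hxH₀' : x ∈ H₀ := hxH₀ (mem_singleton_self x)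
        have hne' : (𝓕.filter (fun H => x ∉ H)).Nonempty :=
          ⟨c H₀, mem_filter.2 ⟨(hc' H₀ hH₀ hxH₀').1, (hc' H₀ hH₀ hxH₀').2.1⟩⟩
        have hne'' : ((𝓕.filter (fun H => x ∈ H)).image (fun H => H.erase x)).Nonempty :=
          ⟨H₀.erase x, mem_image.2 ⟨H₀, mem_filter.2 ⟨hH₀, hxH₀'⟩, rfl⟩⟩
        have hvdd := ihd n _ _ (h.delOld hp hc') hne'
        have hlinkS := h.link hx hxo
        have hvdl : VertexDecomposable
            (gen ((𝓕.filter (fun H => x ∈ H)).image (fun H => H.erase x))) := by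
          rcases Nat.eq_zero_or_pos n with hn | hn
          · subst hn
            exact vd_zero hne'' fun F hF => hlinkS.card F hF
          · obtain ⟨m, rfl⟩ : ∃ m, n = m + 1 := ⟨n - 1, by omega⟩
            exact ihl m _ _ hlinkS hne''
        have hcx := cx_gen hne
        have hlk : Pool.Agent.H933R3.link (gen 𝓕) x =
            gen ((𝓕.filter (fun H => x ∈ H)).image (fun H => H.erase x)) := by
          ext σ
          rw [mem_link' hcx, mem_gen, mem_gen]
          constructor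
          · rintro ⟨h1, H, hH, hsub⟩
            refine ⟨H.erase x, mem_image.2 ⟨H, mem_filter.2 ⟨hH, hsub (mem_insert_self _ _)⟩,
              rfl⟩, fun u hu => mem_erase.2 ⟨fun h2 => h1 (h2 ▸ hu),
              hsub (mem_insert_of_mem hu)⟩⟩
          · rintro ⟨H', hH', hsub⟩
            obtain ⟨H, hH, rfl⟩ := mem_image.1 hH'
            rw [mem_filter] at hH
            exact ⟨fun h1 => (mem_erase.1 (hsub h1)).1 rfl, H, hH.1,
              insert_subset hH.2 fun u hu => (mem_erase.1 (hsub hu)).2⟩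
        have hdl : Pool.Agent.H933R3.del (gen 𝓕) x = gen (𝓕.filter (fun H => x ∉ H)) := by
          ext σ
          rw [mem_del', mem_gen, mem_gen]
          constructor
          · rintro ⟨⟨H, hH, hsub⟩, h1⟩
            by_cases hxH : x ∈ H
            · refine ⟨c H, mem_filter.2 ⟨(hc' H hH hxH).1, (hc' H hH hxH).2.1⟩, fun u hu =>
                (hc' H hH hxH).2.2 (mem_erase.2 ⟨fun h2 => h1 (h2 ▸ hu), hsub hu⟩)⟩
            · exact ⟨H, mem_filter.2 ⟨hH, hxH⟩, hsub⟩
          · rintro ⟨H, hH, hsub⟩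
            rw [mem_filter] at hH
            exact ⟨⟨H, hH.1, hsub⟩, fun h1 => hH.2 (hsub h1)⟩
        refine VertexDecomposable.shed _ x hcx ?_ ?_ ?_ ?_ ?_
        · intro A B hA hB
          rw [h.card A (facet_gen hA), h.card B (facet_gen hB)]
        · exact mem_gen.2 ⟨H₀, hH₀, hxH₀⟩
        · rw [hlk]
          exact hvdl
        · rw [hdl]
          exact hvdd
        · intro F hFl hFd
          rw [hlk] at hFl
          rw [hdl] at hFd
          have h1 := hlinkS.card F (facet_gen hFl)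
          have h2 := h.card F (mem_filter.1 (facet_gen hFd)).1
          omega
    · -- a new vertex
      exact ihd n 𝓕 blk (h.delNew hxo hp) hne

end Pool.Agent.Y279.St
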