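import Mathlib
import Pool.Agent.Y279.St.VD

/-! Refinements of facets, stackings, and vertex-decomposability. -/

set_option autoImplicit false

namespace Pool.Agent.Y279.St

open Finset
open Pool.Agent.H933R3 (IsCx IsFacet IsPure VertexDecomposable mem_del' mem_link'
  exists_facet shed_pure Shellable)

variable {U : Type} [DecidableEq U]

/-- `K'` is obtained from `K` by finitely many steps, each of which replaces a facet of the current
complex by a filling of its boundary. -/
inductive Refines (K : Finset (Finset U)) : Finset (Finset U) → Prop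
  | refl : Refines K K
  | fill (K' : Finset (Finset U)) (F : Finset U) (B : Finset (Finset U)) (h : Refines K K')
      (hF : IsFacet K' F) (hB : IsFilling K' F B) : Refines K (K'.erase F ∪ B)

/-- `K'` is obtained from `K` by finitely many facet stackings: each step stacks a nonempty facet of
the current complex with a vertex that is not a vertex of the current complex. -/
inductive Stackings (K : Finset (Finset U)) : Finset (Finset U) → Prop
  | refl : Stackings K K
  | step (K' : Finset (Finset U)) (F : Finset U) (w : U) (h : Stackings K K') (hF : IsFacet K' F)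
      (hne : F.Nonempty) (hw : {w} ∉ K') : Stackings K (stack K' F w)

theorem pure_of_refines {K K' : Finset (Finset U)} (h : Refines K K') (hK : IsCx K) :
    IsCx K' ∧ (IsPure K' → IsPure K) := by
  induction h with
  | refl => exact ⟨hK, id⟩
  | fill Γ F B h hF hB ih =>
    obtain ⟨h1, h2⟩ := ih
    refine ⟨cx_fill h1 hF hB, fun hp => h2 ?_⟩
    intro A C hA hC
    obtain ⟨A', h3, h4⟩ := facet_fill h1 hF hB hA
    obtain ⟨C', h5, h6⟩ := facet_fill h1 hF hB hC
    rw [← h4, ← h6]
    exact hp A' C' h3 h5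

open Classical in
theorem refines_BS {n : ℕ} {K K' : Finset (Finset U)} (hn : 1 ≤ n) (hK : IsCx K)
    (hp : ∀ F, IsFacet K F → F.card = n + 1) (h : Refines K K') :
    ∃ blk : U → Finset U, BS n (fun v => {v} ∈ K) (K.filter (fun F => IsFacet K F)) blk K' ∧
      ∀ v, {v} ∈ K → {v} ∈ K' := by
  have hsub : ∀ σ ∈ K, ∀ x ∈ σ, {x} ∈ K := fun σ hσ x hx =>
    hK.2 _ hσ _ (singleton_subset_iff.2 hx)
  induction h with
  | refl =>
    refine ⟨fun _ => ∅, ⟨hK, ?_, ?_, fun H hH => hp H (mem_filter.1 hH).2,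
      fun H hH u hu => hsub H (mem_filter.1 hH).1 u hu,
      fun H hH A hA => hK.2 _ (mem_filter.1 hH).1 _ hA.1, fun x hx hxo => absurd hx hxo,
      fun σ hσ x hx y hy hxo => absurd (hsub σ hσ x hx) hxo,
      fun σ hσ x hx y hy hxo => absurd (hsub σ hσ x hx) hxo, ?_⟩, fun v hv => hv⟩
    · intro σ hσ
      obtain ⟨τ, h1, h2⟩ := exists_facet hσ
      exact ⟨τ, h1.1, h2, hp τ h1⟩
    · intro σ hσ
      obtain ⟨τ, h1, h2⟩ := exists_facet hσ
      rw [← hp τ h1]
      exact card_le_card h2
    · intro σ hσ _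
      obtain ⟨τ, h1, h2⟩ := exists_facet hσ
      exact ⟨τ, mem_filter.2 ⟨h1.1, h1⟩, h2⟩
  | fill Γ F B h hF hB ih =>
    obtain ⟨blk, h1, h2⟩ := ih
    have hFc : F.card = n + 1 := by
      obtain ⟨τ, h3, h4, h5⟩ := h1.pure F hF.1
      rw [← hF.2 τ h3 h4]
      exact h5
    obtain ⟨b, hb, B1, B2⟩ : ∃ b ∈ K.filter (fun F => IsFacet K F),
        (∀ x ∈ F, {x} ∉ K → blk x = b) ∧ (∀ u ∈ F, {u} ∈ K → u ∈ b) := by
      by_cases ho : ∀ u ∈ F, {u} ∈ K
      · obtain ⟨H, hH, hFH⟩ := h1.oldf F hF.1 ho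
        have h3 : F = H := eq_of_subset_of_card_le hFH (by rw [h1.card H hH, hFc])
        exact ⟨F, h3 ▸ hH, fun x hx hxo => absurd (ho x hx) hxo, fun u hu _ => hu⟩
      · push Not at ho
        obtain ⟨x, hx, hxo⟩ := ho
        exact ⟨blk x, h1.blkm x (h1.vtx hF.1 hx) hxo,
          fun y hy hyo => h1.same F hF.1 y hy x hx hyo hxo,
          fun u hu huo => h1.sub F hF.1 x hx u hu hxo huo⟩
    have hBv : ∀ {σ : Finset U}, σ ∈ B → ∀ x ∈ σ, {x} ∈ Γ → x ∈ F := fun hσ x hx hxΓ =>
      hB.fresh x (hB.cx.2 _ hσ _ (singleton_subset_iff.2 hx)) hxΓ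
    have hBb : ∀ {σ : Finset U}, σ ∈ B → ∀ x ∈ σ, {x} ∉ K →
        (if {x} ∈ Γ then blk x else b) = b := by
      intro σ hσ x hx hxo
      split_ifs with h3
      · exact B1 x (hBv hσ x hx h3) hxo
      · rfl
    refine ⟨fun z => if {z} ∈ Γ then blk z else b, ⟨cx_fill h1.cx hF hB, ?_, ?_, h1.card,
      h1.isOld, ?_, ?_, ?_, ?_, ?_⟩, ?_⟩
    · have key : ∀ σ ∈ B, ∃ τ ∈ Γ.erase F ∪ B, σ ⊆ τ ∧ τ.card = n + 1 := by
        intro σ hσ
        obtain ⟨τ, h3, h4, h5⟩ := hB.top σ hσ
        exact ⟨τ, mem_fill.2 (Or.inr h3), h4, h5.trans hFc⟩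
      intro σ hσ
      rcases mem_fill.1 hσ with ⟨h3, h4⟩ | h3
      · obtain ⟨τ, h5, h6, h7⟩ := h1.pure σ h3
        by_cases hτ : τ = F
        · subst hτ
          exact key σ (hB.bdry σ ⟨h6, fun h8 => h4 (Subset.antisymm h6 h8)⟩)
        · exact ⟨τ, mem_fill.2 (Or.inl ⟨h5, hτ⟩), h6, h7⟩
      · exact key σ h3
    · intro σ hσ
      rcases mem_fill.1 hσ with ⟨h3, h4⟩ | h3
      · exact h1.max σ h3
      · rw [← hFc]
        exact hB.max σ h3
    · intro H hH A hA
      refine mem_fill.2 (Or.inl ⟨h1.bdry H hH A hA, fun h3 => ?_⟩)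
      have h4 := card_lt_card hA
      rw [h1.card H hH, h3, hFc] at h4
      omega
    · intro x hx hxo
      split_ifs with h3
      · exact h1.blkm x h3 hxo
      · exact hb
    · intro σ hσ x hx y hy hxo hyo
      rcases mem_fill.1 hσ with ⟨h3, h4⟩ | h3
      · rw [if_pos (h1.vtx h3 hx), if_pos (h1.vtx h3 hy)]
        exact h1.same σ h3 x hx y hy hxo hyo
      · rw [hBb h3 x hx hxo, hBb h3 y hy hyo]
    · intro σ hσ x hx u hu hxo huo
      rcases mem_fill.1 hσ with ⟨h3, h4⟩ | h3
      · rw [if_pos (h1.vtx h3 hx)]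
        exact h1.sub σ h3 x hx u hu hxo huo
      · rw [hBb h3 x hx hxo]
        exact B2 u (hBv h3 u hu (h2 u huo)) huo
    · intro σ hσ hσo
      rcases mem_fill.1 hσ with ⟨h3, h4⟩ | h3
      · exact h1.oldf σ h3 hσo
      · have h4 := hB.inside h3 fun u hu => h2 u (hσo u hu)
        exact h1.oldf σ (h1.cx.2 _ hF.1 _ h4.1) hσo
    · intro v hv
      refine mem_fill.2 (Or.inl ⟨h2 v hv, fun h3 => ?_⟩)
      rw [← h3, card_singleton] at hFc
      omega

open Classical in
theorem gen_facets {K : Finset (Finset U)} (hK : IsCx K) :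
    gen (K.filter (fun F => IsFacet K F)) = K := by
  ext σ
  rw [mem_gen]
  constructor
  · rintro ⟨H, hH, hsub⟩
    exact hK.2 _ (mem_filter.1 hH).1 _ hsub
  · intro hσ
    obtain ⟨τ, h1, h2⟩ := exists_facet hσ
    exact ⟨τ, mem_filter.2 ⟨h1.1, h1⟩, h2⟩

/-- complexes of dimension zero are vertex-decomposable -/
theorem vd_dim_zero {K : Finset (Finset U)} (hK : IsCx K) (h : ∀ F, IsFacet K F → F.card = 1) :
    VertexDecomposable K := by
  classical
  obtain ⟨F, hF, -⟩ := exists_facet hK.1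
  have h1 := vd_zero (S := K.filter (fun F => IsFacet K F)) ⟨F, mem_filter.2 ⟨hF.1, hF⟩⟩
    (fun G hG => h G (mem_filter.1 hG).2)
  rwa [gen_facets hK] at h1

/-- If a complex obtained from `K` by replacing facets by fillings of their boundaries is
vertex-decomposable, then so is `K`. -/
theorem vd_of_refines {K K' : Finset (Finset U)} (hK : IsCx K) (hst : Refines K K')
    (h : VertexDecomposable K') : VertexDecomposable K := by
  classical
  have hpure : IsPure K := (pure_of_refines hst hK).2 h.pure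
  obtain ⟨F0, hF0, -⟩ := exists_facet hK.1
  have hm : ∀ F, IsFacet K F → F.card = F0.card := fun F hF => hpure F F0 hF hF0
  rcases Nat.lt_or_ge 1 F0.card with h2 | h2
  · obtain ⟨n, hn⟩ : ∃ n, F0.card = n + 1 + 1 := ⟨F0.card - 2, by omega⟩
    obtain ⟨blk, h3, -⟩ := refines_BS (n := n + 1) (by omega) hK
      (fun F hF => (hm F hF).trans hn) hst
    have h4 := vd_of_blocks h n _ blk h3 ⟨F0, mem_filter.2 ⟨hF0.1, hF0⟩⟩
    rwa [gen_facets hK] at h4
  · rcases Nat.lt_or_ge 0 F0.card with h3 | h3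
    · exact vd_dim_zero hK fun F hF => by rw [hm F hF]; omega
    · have h4 : K = (∅ : Finset U).powerset := by
        ext σ
        rw [mem_powerset, subset_empty]
        constructor
        · intro hσ
          obtain ⟨τ, h5, h6⟩ := exists_facet hσ
          have h7 := card_le_card h6
          rw [hm τ h5] at h7
          exact card_eq_zero.1 (by omega)
        · rintro rfl
          exact hK.1
      rw [h4]
      exact VertexDecomposable.simplex ∅

/-- stacking is a filling -/
theorem stack_eq_fill {K : Finset (Finset U)} (hK : IsCx K) {F : Finset U} (hF : IsFacet K F)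
    (hne : F.Nonempty) {w : U} (hw : {w} ∉ K) :
    IsFilling K F (F.ssubsets.image (insert w) ∪ F.ssubsets) ∧
      stack K F w = K.erase F ∪ (F.ssubsets.image (insert w) ∪ F.ssubsets) := by
  have hwF : w ∉ F := fun h => hw (hK.2 _ hF.1 _ (singleton_subset_iff.2 h))
  have hmem : ∀ σ : Finset U, σ ∈ F.ssubsets.image (insert w) ∪ F.ssubsets ↔
      (∃ G, G ⊂ F ∧ insert w G = σ) ∨ σ ⊂ F := by
    intro σ
    rw [mem_union, mem_image, mem_ssubsets]
    constructor
    · rintro (⟨G, h1, h2⟩ | h1)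
      · exact Or.inl ⟨G, mem_ssubsets.1 h1, h2⟩
      · exact Or.inr h1
    · rintro (⟨G, h1, h2⟩ | h1)
      · exact Or.inl ⟨G, mem_ssubsets.2 h1, h2⟩
      · exact Or.inr h1
  constructor
  · refine ⟨⟨(hmem ∅).2 (Or.inr (empty_ssubset.2 hne)), ?_⟩, ?_, fun G hG => (hmem G).2 (Or.inr hG),
      ?_, ?_⟩
    · intro σ hσ τ hτ
      rcases (hmem σ).1 hσ with ⟨G, hG, rfl⟩ | h1
      · by_cases hwτ : w ∈ τ
        · refine (hmem τ).2 (Or.inl ⟨τ.erase w, lt_of_le_of_lt ?_ hG, insert_erase hwτ⟩)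
          intro u hu
          rw [mem_erase] at hu
          exact (mem_insert.1 (hτ hu.2)).resolve_left hu.1
        · refine (hmem τ).2 (Or.inr (lt_of_le_of_lt ?_ hG))
          intro u hu
          exact (mem_insert.1 (hτ hu)).resolve_left fun h => hwτ (h ▸ hu)
      · exact (hmem τ).2 (Or.inr (lt_of_le_of_lt hτ h1))
    · intro G hG
      rcases (hmem G).1 hG.1 with ⟨G', hG', rfl⟩ | h1
      · obtain ⟨v, hv, hvG⟩ := exists_of_ssubset hG'
        have hss := erase_ssubset hv
        have h2 := hG.2 (insert w (F.erase v)) ((hmem _).2 (Or.inl ⟨_, hss, rfl⟩)) (by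
          apply insert_subset_insert
          intro u hu
          rw [mem_erase]
          refine ⟨?_, hG'.1 hu⟩
          rintro rfl
          exact hvG hu)
        have := card_pos.2 hne
        rw [← h2, card_insert_of_notMem fun h => hwF (mem_erase.1 h).2, card_erase_of_mem hv]
        omega
      · exfalso
        have h2 := hG.2 (insert w G) ((hmem _).2 (Or.inl ⟨G, h1, rfl⟩)) (subset_insert w G)
        exact hwF (h1.1 (h2 ▸ mem_insert_self w G))
    · intro h
      rcases (hmem F).1 h with ⟨G, hG, h1⟩ | h1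
      · exact hwF (h1 ▸ mem_insert_self w G)
      · exact (ssubset_irrefl F) h1
    · intro x hx hxK
      rcases (hmem {x}).1 hx with ⟨G, hG, h1⟩ | h1
      · exfalso
        have h2 : w ∈ ({x} : Finset U) := h1 ▸ mem_insert_self w G
        rw [mem_singleton] at h2
        exact hw (h2 ▸ hxK)
      · exact h1.1 (mem_singleton_self x)
  · ext σ
    rw [mem_stack, mem_fill, hmem]
    constructor
    · rintro (h1 | h1)
      · exact Or.inl h1
      · exact Or.inr (Or.inl h1)
    · rintro (h1 | h1 | h1)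
      · exact Or.inl h1
      · exact Or.inr h1
      · exact Or.inl ⟨hK.2 _ hF.1 _ h1.1, h1.ne⟩

theorem refines_of_stackings {K K' : Finset (Finset U)} (hK : IsCx K) (h : Stackings K K') :
    IsCx K' ∧ Refines K K' := by
  induction h with
  | refl => exact ⟨hK, Refines.refl⟩
  | step Γ F w h hF hne hw ih =>
    obtain ⟨h1, h2⟩ := ih
    obtain ⟨h3, h4⟩ := stack_eq_fill h1 hF hne hw
    refine ⟨cx_stack h1 hF hne w, ?_⟩
    rw [h4]
    exact Refines.fill _ _ _ h2 hF h3

end Pool.Agent.Y279.St
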