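import Mathlib
import Pool.Agent.Y279.St.VD2

/-! Relabelling, and stacking preserves vertex-decomposability. -/

set_option autoImplicit false

namespace Pool.Agent.Y279.St

open Finset
open Pool.Agent.H933R3 (IsCx IsFacet IsPure VertexDecomposable mem_del' mem_link'
  exists_facet shed_pure Shellable)

section relabel

variable {V U : Type} [DecidableEq V] [DecidableEq U] {f : V → U}

theorem mem_im (hf : Function.Injective f) {K : Finset (Finset V)} {σ : Finset V} :
    σ.image f ∈ K.image (fun G => G.image f) ↔ σ ∈ K := by
  rw [mem_image]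
  exact ⟨fun ⟨τ, h1, h2⟩ => image_injective hf h2 ▸ h1, fun h => ⟨σ, h, rfl⟩⟩

theorem cx_im (hf : Function.Injective f) {K : Finset (Finset V)} (hK : IsCx K) :
    IsCx (K.image (fun G => G.image f)) := by
  refine ⟨mem_image.2 ⟨∅, hK.1, image_empty f⟩, ?_⟩
  intro σ hσ τ hτ
  obtain ⟨A, hA, rfl⟩ := mem_image.1 hσ
  refine mem_image.2 ⟨pre hf τ, hK.2 A hA _ ?_, image_pre hf hτ⟩
  intro v hv
  rw [mem_pre] at hv
  obtain ⟨w, hw, hwv⟩ := mem_image.1 (hτ hv)
  exact hf hwv ▸ hw

theorem cx_of_im (hf : Function.Injective f) {K : Finset (Finset V)}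
    (hK : IsCx (K.image (fun G => G.image f))) : IsCx K := by
  refine ⟨?_, fun σ hσ τ hτ => ?_⟩
  · rw [← mem_im hf, image_empty]
    exact hK.1
  · rw [← mem_im hf]
    exact hK.2 _ ((mem_im hf).2 hσ) _ (image_subset_image hτ)

theorem del_im (hf : Function.Injective f) (K : Finset (Finset V)) (v : V) :
    Pool.Agent.H933R3.del (K.image (fun G => G.image f)) (f v) =
      (Pool.Agent.H933R3.del K v).image (fun G => G.image f) := by
  ext τ
  rw [mem_del', mem_image, mem_image]
  constructor
  · rintro ⟨⟨σ, h1, rfl⟩, h2⟩
    exact ⟨σ, mem_del'.2 ⟨h1, fun h3 => h2 (mem_image_of_mem f h3)⟩, rfl⟩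
  · rintro ⟨σ, h1, rfl⟩
    rw [mem_del'] at h1
    refine ⟨⟨σ, h1.1, rfl⟩, fun h2 => h1.2 ?_⟩
    obtain ⟨u, hu, huv⟩ := mem_image.1 h2
    exact hf huv ▸ hu

theorem link_im (hf : Function.Injective f) {K : Finset (Finset V)} (hK : IsCx K) (v : V) :
    Pool.Agent.H933R3.link (K.image (fun G => G.image f)) (f v) =
      (Pool.Agent.H933R3.link K v).image (fun G => G.image f) := by
  ext τ
  rw [mem_link' (cx_im hf hK)]
  constructor
  · rintro ⟨h1, h2⟩
    obtain ⟨σ, h3, rfl⟩ := mem_image.1 ((cx_im hf hK).2 _ h2 τ (subset_insert _ _))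
    refine mem_image.2 ⟨σ, (mem_link' hK).2 ⟨fun h5 => h1 (mem_image_of_mem f h5), ?_⟩, rfl⟩
    rw [← image_insert, mem_im hf] at h2
    exact h2
  · intro h
    obtain ⟨σ, h1, rfl⟩ := mem_image.1 h
    rw [mem_link' hK] at h1
    refine ⟨fun h2 => h1.1 ?_, ?_⟩
    · obtain ⟨u, hu, huv⟩ := mem_image.1 h2
      exact hf huv ▸ hu
    · rw [← image_insert, mem_im hf]
      exact h1.2

theorem facet_im_iff (hf : Function.Injective f) {K : Finset (Finset V)} {X : Finset U} :
    IsFacet (K.image (fun G => G.image f)) X ↔ ∃ A, IsFacet K A ∧ X = A.image f := by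
  constructor
  · intro h
    obtain ⟨A, -, rfl⟩ := mem_image.1 h.1
    exact ⟨A, (facet_image hf).1 h, rfl⟩
  · rintro ⟨A, h1, rfl⟩
    exact (facet_image hf).2 h1

theorem pure_im (hf : Function.Injective f) {K : Finset (Finset V)} :
    IsPure (K.image (fun G => G.image f)) ↔ IsPure K := by
  constructor
  · intro h A B hA hB
    have := h _ _ ((facet_image hf).2 hA) ((facet_image hf).2 hB)
    rwa [card_image_of_injective _ hf, card_image_of_injective _ hf] at this
  · intro h X Y hX hY
    obtain ⟨A, hA, rfl⟩ := (facet_im_iff hf).1 hX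
    obtain ⟨B, hB, rfl⟩ := (facet_im_iff hf).1 hY
    rw [card_image_of_injective _ hf, card_image_of_injective _ hf]
    exact h A B hA hB

theorem powerset_im (hf : Function.Injective f) (F : Finset V) :
    F.powerset.image (fun G => G.image f) = (F.image f).powerset := by
  ext τ
  rw [mem_image, mem_powerset]
  constructor
  · rintro ⟨σ, h1, rfl⟩
    exact image_subset_image (mem_powerset.1 h1)
  · intro h
    refine ⟨pre hf τ, ?_, image_pre hf h⟩
    rw [mem_powerset]
    intro v hv
    rw [mem_pre] at hv
    obtain ⟨w, hw, hwv⟩ := mem_image.1 (h hv)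
    exact hf hwv ▸ hw

theorem vd_im (hf : Function.Injective f) {K : Finset (Finset V)} (h : VertexDecomposable K) :
    VertexDecomposable (K.image (fun G => G.image f)) := by
  induction h with
  | simplex F =>
    rw [powerset_im hf]
    exact VertexDecomposable.simplex _
  | shed K v hK hp hv hl hd hs ihl ihd =>
    refine VertexDecomposable.shed _ (f v) (cx_im hf hK) ((pure_im hf).2 hp) ?_ ?_ ?_ ?_
    · rw [← image_singleton, mem_im hf]
      exact hv
    · rw [link_im hf hK]
      exact ihl
    · rw [del_im hf]
      exact ihd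
    · intro X hX hX'
      rw [link_im hf hK] at hX
      rw [del_im hf] at hX'
      obtain ⟨A, hA, rfl⟩ := (facet_im_iff hf).1 hX
      exact hs A hA ((facet_image hf).1 hX')

theorem vd_of_im (hf : Function.Injective f) {K' : Finset (Finset U)}
    (h : VertexDecomposable K') : ∀ K : Finset (Finset V), K' = K.image (fun G => G.image f) →
      VertexDecomposable K := by
  induction h with
  | simplex F =>
    intro K hK
    have h1 : F ∈ K.image (fun G => G.image f) := hK ▸ mem_powerset.2 (Subset.refl F)
    obtain ⟨A, hA, h2⟩ := mem_image.1 h1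
    subst h2
    have h3 : K = A.powerset := by
      rw [← powerset_im hf] at hK
      exact (image_injective (image_injective hf) hK).symm
    rw [h3]
    exact VertexDecomposable.simplex A
  | shed K' v' hK' hp hv hl hd hs ihl ihd =>
    rintro K rfl
    have hK := cx_of_im hf hK'
    obtain ⟨A, hA, h2⟩ := mem_image.1 hv
    have h3 : v' ∈ A.image f := h2 ▸ mem_singleton_self v'
    obtain ⟨v, hvA, rfl⟩ := mem_image.1 h3
    refine VertexDecomposable.shed K v hK ((pure_im hf).1 hp) ?_ ?_ ?_ ?_
    · exact hK.2 A hA _ (singleton_subset_iff.2 hvA)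
    · exact ihl _ (link_im hf hK v)
    · exact ihd _ (del_im hf K v)
    · intro G hG hG'
      have h4 := hs (G.image f) (by rw [link_im hf hK]; exact (facet_image hf).2 hG)
      apply h4
      rw [del_im hf]
      exact (facet_image hf).2 hG'

theorem vd_im_iff (hf : Function.Injective f) {K : Finset (Finset V)} :
    VertexDecomposable (K.image (fun G => G.image f)) ↔ VertexDecomposable K :=
  ⟨fun h => vd_of_im hf h K rfl, vd_im hf⟩

end relabel

variable {U : Type} [DecidableEq U]

theorem link_facet {K : Finset (Finset U)} (hK : IsCx K) {H : Finset U} (hH : IsFacet K H) {v : U}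
    (hv : v ∈ H) : IsFacet (Pool.Agent.H933R3.link K v) (H.erase v) := by
  refine ⟨(mem_link' hK).2 ⟨notMem_erase v H, by rw [insert_erase hv]; exact hH.1⟩, ?_⟩
  intro G hG hsub
  rw [mem_link' hK] at hG
  have h1 : H ⊆ insert v G := by
    intro u hu
    by_cases huv : u = v
    · rw [huv]; exact mem_insert_self v G
    · exact mem_insert_of_mem (hsub (mem_erase.2 ⟨huv, hu⟩))
  rw [← hH.2 _ hG.2 h1, erase_insert hG.1]

/-- two complexes that are both pure, of different dimensions, have no common facet -/
theorem no_common {L D : Finset (Finset U)} (hL : IsPure L) (hD : IsPure D) {A B : Finset U}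
    (hA : IsFacet L A) (hB : IsFacet D B) (h : A.card < B.card) (F : Finset U) (hF : IsFacet L F) :
    ¬ IsFacet D F := by
  intro hF'
  have h1 := hL F A hF hA
  have h2 := hD F B hF' hB
  omega

/-- Stacking a facet preserves vertex-decomposability. -/
theorem vd_stack {K : Finset (Finset U)} (h : VertexDecomposable K) : ∀ (F : Finset U) (w : U),
    IsFacet K F → F.Nonempty → {w} ∉ K → VertexDecomposable (stack K F w) := by
  have aux : ∀ (K : Finset (Finset U)) (v : U), IsCx K → IsPure K → {v} ∈ K →
      VertexDecomposable (Pool.Agent.H933R3.link K v) →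
      VertexDecomposable (Pool.Agent.H933R3.del K v) →
      ∀ (F : Finset U) (w : U), IsFacet K F → {w} ∉ K → v ∈ F → 1 < F.card →
      (¬ IsFacet (Pool.Agent.H933R3.del K v) (F.erase v) ∨ K = F.powerset) →
      VertexDecomposable (stack (Pool.Agent.H933R3.link K v) (F.erase v) w) →
      VertexDecomposable (stack K F w) := by
    intro K v hK hp hv hl hd F w hF hw hvF hFc hs ih
    have hne : F.Nonempty := ⟨v, hvF⟩
    have hwK : ∀ σ ∈ K, w ∉ σ := fun σ hσ h => hw (hK.2 _ hσ _ (singleton_subset_iff.2 h))
    have hvw : v ≠ w := fun h => hw (h ▸ hv)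
    have hcx := cx_stack hK hF hne w
    have hlf := link_facet hK hF hvF
    have hFe : F.erase v ∈ Pool.Agent.H933R3.del K v :=
      mem_del'.2 ⟨hK.2 _ hF.1 _ (erase_subset v F), notMem_erase v F⟩
    have hclink := hK.link' hv
    have hne' : (F.erase v).Nonempty := card_pos.1 (by rw [card_erase_of_mem hvF]; omega)
    have hwl : {w} ∉ Pool.Agent.H933R3.link K v := by
      intro h
      rw [mem_link' hK] at h
      exact hwK _ h.2 (by simp)
    -- the link
    have hlk : Pool.Agent.H933R3.link (stack K F w) v =
        stack (Pool.Agent.H933R3.link K v) (F.erase v) w := by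
      ext σ
      rw [mem_link' hcx, mem_stack, mem_stack]
      constructor
      · rintro ⟨h1, ⟨h2, h3⟩ | ⟨G, hG, h2⟩⟩
        · refine Or.inl ⟨(mem_link' hK).2 ⟨h1, h2⟩, fun h4 => h3 ?_⟩
          rw [h4, insert_erase hvF]
        · right
          have hvG : v ∈ G := by
            have : v ∈ insert w G := h2 ▸ mem_insert_self v σ
            exact (mem_insert.1 this).resolve_left hvw
          refine ⟨G.erase v, ?_, ?_⟩
          · refine ⟨erase_subset_erase v hG.1, fun h3 => hG.2 ?_⟩
            intro u hu
            by_cases huv : u = v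
            · rw [huv]; exact hvG
            · exact (mem_erase.1 (h3 (mem_erase.2 ⟨huv, hu⟩))).2
          · rw [← erase_insert h1, ← h2, erase_insert_of_ne (Ne.symm hvw)]
      · rintro (⟨h1, h2⟩ | ⟨G, hG, rfl⟩)
        · rw [mem_link' hK] at h1
          refine ⟨h1.1, Or.inl ⟨h1.2, fun h3 => h2 ?_⟩⟩
          rw [← h3, erase_insert h1.1]
        · have hvG : v ∉ G := fun h => (mem_erase.1 (hG.1 h)).1 rfl
          refine ⟨?_, Or.inr ⟨insert v G, ?_, insert_comm w v G⟩⟩
          · rw [mem_insert]
            rintro (h | h)
            · exact hvw h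
            · exact hvG h
          · refine ⟨insert_subset hvF fun u hu => (mem_erase.1 (hG.1 hu)).2, fun h3 => hG.2 ?_⟩
            intro u hu
            rw [mem_erase] at hu
            exact (mem_insert.1 (h3 hu.2)).resolve_left hu.1
    -- the deletion
    set D := Pool.Agent.H933R3.del (stack K F w) v with hD
    have hDm : ∀ σ, σ ∈ D ↔ σ ∈ Pool.Agent.H933R3.del K v ∨ σ ⊆ insert w (F.erase v) := by
      intro σ
      rw [hD, mem_del', mem_stack, mem_del']
      constructor
      · rintro ⟨⟨h1, h2⟩ | ⟨G, hG, rfl⟩, h3⟩
        · exact Or.inl ⟨h1, h3⟩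
        · right
          apply insert_subset_insert
          intro u hu
          rw [mem_erase]
          exact ⟨fun h4 => h3 (mem_insert_of_mem (h4 ▸ hu)), hG.1 hu⟩
      · rintro (⟨h1, h2⟩ | h1)
        · exact ⟨Or.inl ⟨h1, fun h3 => h2 (h3 ▸ hvF)⟩, h2⟩
        · have hvσ : v ∉ σ := by
            intro h2
            rcases mem_insert.1 (h1 h2) with h3 | h3
            · exact hvw h3
            · exact (mem_erase.1 h3).1 rfl
          refine ⟨?_, hvσ⟩
          by_cases hwσ : w ∈ σ
          · right
            refine ⟨σ.erase w, ?_, insert_erase hwσ⟩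
            refine lt_of_le_of_lt ?_ (erase_ssubset hvF)
            intro u hu
            rw [mem_erase] at hu
            exact (mem_insert.1 (h1 hu.2)).resolve_left hu.1
          · left
            have h2 : σ ⊆ F.erase v := fun u hu =>
              (mem_insert.1 (h1 hu)).resolve_left fun h => hwσ (h ▸ hu)
            exact ⟨hK.2 _ hF.1 _ (h2.trans (erase_subset v F)),
              fun h3 => hvσ (h3 ▸ hvF)⟩
    have hwFe : w ∉ F.erase v := fun h => hwK F hF.1 (mem_erase.1 h).2
    have hcD : IsCx D := hcx.del' v
    have htop : IsFacet D (insert w (F.erase v)) := by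
      refine ⟨(hDm _).2 (Or.inr (Subset.refl _)), fun G hG hsub => ?_⟩
      rcases (hDm G).1 hG with h1 | h1
      · exact absurd (hsub (mem_insert_self w _)) (hwK G (mem_del'.1 h1).1)
      · exact Subset.antisymm h1 hsub
    have htc : (insert w (F.erase v)).card = F.card := by
      rw [card_insert_of_notMem hwFe, card_erase_of_mem hvF]
      omega
    have hDvd : VertexDecomposable D ∧ IsPure D := by
      rcases hs with hs | hs
      · -- facets of the deletion of `K`
        have hfd : ∀ G, IsFacet (Pool.Agent.H933R3.del K v) G → G.card = F.card := by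
          have h1 : ∃ G ∈ Pool.Agent.H933R3.del K v, F.erase v ⊆ G ∧ G ≠ F.erase v := by
            by_contra hcon
            push Not at hcon
            exact hs ⟨hFe, fun G hG hsub => hcon G hG hsub⟩
          obtain ⟨G, hG, hsub, hGne⟩ := h1
          obtain ⟨G', hG', hGG'⟩ := exists_facet hG
          have h2 : F.card - 1 < G.card := by
            rw [← card_erase_of_mem hvF]
            exact card_lt_card ⟨hsub, fun h => hGne (Subset.antisymm h hsub)⟩
          have h3 := card_le_card hGG'
          obtain ⟨G'', hG'', hG'G''⟩ := exists_facet (mem_del'.1 hG'.1).1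
          have h4 := card_le_card hG'G''
          rw [hp G'' F hG'' hF] at h4
          intro A hA
          rw [hd.pure A G' hA hG']
          omega
        have hpD : IsPure D := by
          have h1 : ∀ G, IsFacet D G → G.card = F.card := by
            intro G hG
            rcases (hDm G).1 hG.1 with h2 | h2
            · exact hfd G ⟨h2, fun G' hG' hsub => hG.2 G' ((hDm G').2 (Or.inl hG')) hsub⟩
            · rw [← hG.2 _ htop.1 h2, htc]
          intro A B hA hB
          rw [h1 A hA, h1 B hB]
        refine ⟨?_, hpD⟩
        have hlw : Pool.Agent.H933R3.link D w = (F.erase v).powerset := by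
          ext σ
          rw [mem_link' hcD, mem_powerset, hDm]
          constructor
          · rintro ⟨h1, h2 | h2⟩
            · exact absurd (mem_insert_self w σ) (hwK _ (mem_del'.1 h2).1)
            · exact fun u hu => (mem_insert.1 (h2 (mem_insert_of_mem hu))).resolve_left
                fun h => h1 (h ▸ hu)
          · intro h1
            exact ⟨fun h2 => hwFe (h1 h2), Or.inr (insert_subset_insert w h1)⟩
        have hdw : Pool.Agent.H933R3.del D w = Pool.Agent.H933R3.del K v := by
          ext σ
          rw [mem_del', hDm]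
          constructor
          · rintro ⟨h1 | h1, h2⟩
            · exact h1
            · exact (hK.del' v).2 _ hFe _ fun u hu =>
                (mem_insert.1 (h1 hu)).resolve_left fun h => h2 (h ▸ hu)
          · intro h1
            exact ⟨Or.inl h1, hwK σ (mem_del'.1 h1).1⟩
        refine VertexDecomposable.shed D w hcD hpD ?_ ?_ ?_ ?_
        · exact hcD.2 _ htop.1 _ (singleton_subset_iff.2 (mem_insert_self _ _))
        · rw [hlw]
          exact VertexDecomposable.simplex _
        · rw [hdw]
          exact hd
        · intro G hG hG'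
          rw [hlw] at hG
          rw [hdw] at hG'
          have h1 := card_le_card (mem_powerset.1 hG.1)
          rw [hfd G hG', card_erase_of_mem hvF] at h1
          omega
      · -- a simplex
        have h1 : D = (insert w (F.erase v)).powerset := by
          ext σ
          rw [hDm, mem_powerset]
          constructor
          · rintro (h1 | h1)
            · rw [mem_del', hs, mem_powerset] at h1
              exact fun u hu => mem_insert_of_mem (mem_erase.2 ⟨fun h => h1.2 (h ▸ hu), h1.1 hu⟩)
            · exact h1
          · exact fun h1 => Or.inr h1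
        have h2 : VertexDecomposable D := by
          rw [h1]
          exact VertexDecomposable.simplex _
        exact ⟨h2, h2.pure⟩
    obtain ⟨G₀, hG₀, hG₀c⟩ := facet_stack hclink hlf hne' hwl hlf
    have hpS : IsPure (stack K F w) := by
      -- every facet has `F.card` elements
      have h1 : ∀ G, IsFacet (stack K F w) G → G.card = F.card := by
        intro G hG
        rcases mem_stack.1 hG.1 with ⟨h2, h3⟩ | ⟨G', hG', rfl⟩
        · obtain ⟨H, hH, hGH⟩ := exists_facet h2
          by_cases hHF : H = F
          · exfalso
            subst hHF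
            have h4 : G ⊂ H := ⟨hGH, fun h => h3 (Subset.antisymm hGH h)⟩
            have h5 := hG.2 (insert w G) (mem_stack.2 (Or.inr ⟨G, h4, rfl⟩)) (subset_insert w G)
            exact hwK G h2 (h5 ▸ mem_insert_self w G)
          · rw [← hG.2 H (mem_stack.2 (Or.inl ⟨hH.1, hHF⟩)) hGH]
            exact hp H F hH hF
        · obtain ⟨u, hu, huG⟩ := exists_of_ssubset hG'
          have h4 := hG.2 (insert w (F.erase u)) (mem_stack.2 (Or.inr ⟨_, erase_ssubset hu, rfl⟩))
            (insert_subset_insert w fun z hz => mem_erase.2 ⟨fun h => huG (h ▸ hz), hG'.1 hz⟩)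
          rw [← h4, card_insert_of_notMem fun h => hwK F hF.1 (mem_erase.1 h).2,
            card_erase_of_mem hu]
          omega
      intro A B hA hB
      rw [h1 A hA, h1 B hB]
    refine VertexDecomposable.shed (stack K F w) v hcx hpS ?_ ?_ hDvd.1 ?_
    · refine mem_stack.2 (Or.inl ⟨hv, fun h1 => ?_⟩)
      rw [← h1, card_singleton] at hFc
      omega
    · rw [hlk]
      exact ih
    · rw [hlk]
      refine no_common ih.pure hDvd.2 hG₀ htop ?_
      rw [hG₀c, htc, card_erase_of_mem hvF]
      omega
  have zero : ∀ (K : Finset (Finset U)) (F : Finset U) (w : U), IsCx K → IsPure K →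
      IsFacet K F → {w} ∉ K → F.card = 1 → VertexDecomposable (stack K F w) := by
    intro K F w hK hp hF hw hFc
    have hne : F.Nonempty := card_pos.1 (by omega)
    refine vd_dim_zero (cx_stack hK hF hne w) fun G hG => ?_
    have h0 : ∀ σ ∈ K, σ.card ≤ 1 := by
      intro σ hσ
      obtain ⟨H, hH, h1⟩ := exists_facet hσ
      have := card_le_card h1
      rw [hp H F hH hF] at this
      omega
    have h1 : ∀ σ ∈ stack K F w, σ.card ≤ 1 := by
      intro σ hσ
      rcases mem_stack.1 hσ with ⟨h2, -⟩ | ⟨G', hG', rfl⟩
      · exact h0 σ h2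
      · have h3 := card_insert_le w G'
        have h4 := card_lt_card hG'
        omega
    have h2 : 0 < G.card := by
      by_contra h3
      have h4 : G = ∅ := card_eq_zero.1 (by omega)
      have h5 := hG.2 {w} (mem_stack.2 (Or.inr ⟨∅, empty_ssubset.2 hne, rfl⟩))
        (h4 ▸ empty_subset _)
      rw [h4] at h5
      exact singleton_ne_empty w h5
    have h3 := h1 G hG.1
    omega
  induction h with
  | simplex σ =>
    intro F w hF hne hw
    have hFσ : σ = F := hF.2 σ (mem_powerset.2 (Subset.refl σ)) (mem_powerset.1 hF.1)
    subst hFσ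
    clear hF
    induction σ using Finset.strongInduction with
    | H σ ih =>
      have hF : IsFacet σ.powerset σ := ⟨mem_powerset.2 (Subset.refl σ),
        fun G hG hs => Subset.antisymm (mem_powerset.1 hG) hs⟩
      have hcx : IsCx σ.powerset := ⟨empty_mem_powerset σ, fun A hA B hB =>
        mem_powerset.2 (hB.trans (mem_powerset.1 hA))⟩
      rcases Nat.lt_or_ge 1 σ.card with h1 | h1
      · obtain ⟨v, hv⟩ := hne
        have hvK : {v} ∈ σ.powerset := mem_powerset.2 (singleton_subset_iff.2 hv)
        have hl : Pool.Agent.H933R3.link σ.powerset v = (σ.erase v).powerset := by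
          ext τ
          rw [mem_link' hcx, mem_powerset, mem_powerset]
          constructor
          · rintro ⟨h2, h3⟩ u hu
            exact mem_erase.2 ⟨fun h => h2 (h ▸ hu), h3 (mem_insert_of_mem hu)⟩
          · intro h2
            exact ⟨fun h => (mem_erase.1 (h2 h)).1 rfl,
              insert_subset hv fun u hu => (mem_erase.1 (h2 hu)).2⟩
        have hd : Pool.Agent.H933R3.del σ.powerset v = (σ.erase v).powerset := by
          ext τ
          rw [mem_del', mem_powerset, mem_powerset]
          constructor
          · rintro ⟨h2, h3⟩ u hu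
            exact mem_erase.2 ⟨fun h => h3 (h ▸ hu), h2 hu⟩
          · intro h2
            exact ⟨fun u hu => (mem_erase.1 (h2 hu)).2, fun h => (mem_erase.1 (h2 h)).1 rfl⟩
        refine aux σ.powerset v hcx (VertexDecomposable.simplex σ).pure hvK ?_ ?_ σ w hF hw hv h1
          (Or.inr rfl) ?_
        · rw [hl]
          exact VertexDecomposable.simplex _
        · rw [hd]
          exact VertexDecomposable.simplex _
        · rw [hl]
          refine ih (σ.erase v) (erase_ssubset hv) ?_ (card_pos.1 ?_)
          · intro h2
            apply hw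
            rw [mem_powerset] at h2 ⊢
            exact h2.trans (erase_subset v σ)
          · rw [card_erase_of_mem hv]
            omega
      · exact zero σ.powerset σ w hcx (VertexDecomposable.simplex σ).pure hF hw
          (by have := card_pos.2 hne; omega)
  | shed K v hK hp hv hl hd hs ihl ihd =>
    intro F w hF hne hw
    have hwK : ∀ σ ∈ K, w ∉ σ := fun σ hσ h => hw (hK.2 _ hσ _ (singleton_subset_iff.2 h))
    have hvw : v ≠ w := fun h => hw (h ▸ hv)
    rcases Nat.lt_or_ge 1 F.card with hFc | hFc
    · by_cases hvF : v ∈ F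
      · refine aux K v hK hp hv hl hd F w hF hw hvF hFc
          (Or.inl (hs _ (link_facet hK hF hvF))) ?_
        refine ihl _ w (link_facet hK hF hvF) (card_pos.1 ?_) ?_
        · rw [card_erase_of_mem hvF]
          omega
        · intro h
          rw [mem_link' hK] at h
          exact hwK _ h.2 (by simp)
      · have hcx := cx_stack hK hF hne w
        have hFd : IsFacet (Pool.Agent.H933R3.del K v) F :=
          ⟨mem_del'.2 ⟨hF.1, hvF⟩, fun G hG hsub => hF.2 G (mem_del'.1 hG).1 hsub⟩
        have hwd : {w} ∉ Pool.Agent.H933R3.del K v := fun h => hw (mem_del'.1 h).1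
        have ih := ihd F w hFd hne hwd
        have hlk : Pool.Agent.H933R3.link (stack K F w) v = Pool.Agent.H933R3.link K v := by
          ext σ
          rw [mem_link' hcx, mem_link' hK, mem_stack]
          constructor
          · rintro ⟨h1, ⟨h2, -⟩ | ⟨G, hG, h2⟩⟩
            · exact ⟨h1, h2⟩
            · exfalso
              have h3 : v ∈ insert w G := h2 ▸ mem_insert_self v σ
              exact hvF (hG.1 ((mem_insert.1 h3).resolve_left hvw))
          · rintro ⟨h1, h2⟩
            exact ⟨h1, Or.inl ⟨h2, fun h3 => hvF (h3 ▸ mem_insert_self v σ)⟩⟩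
        have hdl : Pool.Agent.H933R3.del (stack K F w) v =
            stack (Pool.Agent.H933R3.del K v) F w := by
          ext σ
          rw [mem_del', mem_stack, mem_stack, mem_del']
          constructor
          · rintro ⟨⟨h1, h2⟩ | h1, h3⟩
            · exact Or.inl ⟨⟨h1, h3⟩, h2⟩
            · exact Or.inr h1
          · rintro (⟨⟨h1, h2⟩, h3⟩ | ⟨G, hG, rfl⟩)
            · exact ⟨Or.inl ⟨h1, h3⟩, h2⟩
            · refine ⟨Or.inr ⟨G, hG, rfl⟩, fun h => ?_⟩
              rcases mem_insert.1 h with h | h
              · exact hvw h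
              · exact hvF (hG.1 h)
        obtain ⟨H, hH, hvH⟩ := exists_facet hv
        have hvH' : v ∈ H := hvH (mem_singleton_self v)
        obtain ⟨G₀, hG₀, hG₀c⟩ := facet_stack (hK.del' v) hFd hne hwd hFd
        have hHc := hp H F hH hF
        have hpS : IsPure (stack K F w) := by
          have h1 : ∀ G, IsFacet (stack K F w) G → G.card = F.card := by
            intro G hG
            rcases mem_stack.1 hG.1 with ⟨h2, h3⟩ | ⟨G', hG', rfl⟩
            · obtain ⟨H, hH, hGH⟩ := exists_facet h2
              by_cases hHF : H = F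
              · exfalso
                subst hHF
                have h4 : G ⊂ H := ⟨hGH, fun h => h3 (Subset.antisymm hGH h)⟩
                have h5 := hG.2 (insert w G) (mem_stack.2 (Or.inr ⟨G, h4, rfl⟩)) (subset_insert w G)
                exact hwK G h2 (h5 ▸ mem_insert_self w G)
              · rw [← hG.2 H (mem_stack.2 (Or.inl ⟨hH.1, hHF⟩)) hGH]
                exact hp H F hH hF
            · obtain ⟨u, hu, huG⟩ := exists_of_ssubset hG'
              have h4 := hG.2 (insert w (F.erase u))
                (mem_stack.2 (Or.inr ⟨_, erase_ssubset hu, rfl⟩))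
                (insert_subset_insert w fun z hz => mem_erase.2 ⟨fun h => huG (h ▸ hz), hG'.1 hz⟩)
              rw [← h4, card_insert_of_notMem fun h => hwK F hF.1 (mem_erase.1 h).2,
                card_erase_of_mem hu]
              omega
          intro A B hA hB
          rw [h1 A hA, h1 B hB]
        refine VertexDecomposable.shed (stack K F w) v hcx hpS ?_ ?_ ?_ ?_
        · refine mem_stack.2 (Or.inl ⟨hv, fun h1 => hvF (h1 ▸ mem_singleton_self v)⟩)
        · rw [hlk]
          exact hl
        · rw [hdl]
          exact ih
        · rw [hlk, hdl]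
          refine no_common hl.pure ih.pure (link_facet hK hH hvH') hG₀ ?_
          rw [card_erase_of_mem hvH', hG₀c, hHc]
          omega
    · exact zero K F w hK hp hF hw (by have := card_pos.2 hne; omega)

theorem vd_stackings {K K' : Finset (Finset U)} (hK : IsCx K) (h : Stackings K K') :
    VertexDecomposable K' ↔ VertexDecomposable K := by
  constructor
  · exact fun h1 => vd_of_refines hK (refines_of_stackings hK h).2 h1
  · intro h1
    induction h with
    | refl => exact h1
    | step Γ F w h hF hne hw ih => exact vd_stack ih F w hF hne hw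

end Pool.Agent.Y279.St
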