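import Mathlib
import Pool.Agent.Y279.St.VD3

/-! Stacking a set of facets. -/

set_option autoImplicit false

namespace Pool.Agent.Y279.St

open Finset
open Pool.Agent.H933R3 (IsCx IsFacet IsPure VertexDecomposable Shellable)

variable {V : Type} [DecidableEq V]

/-- stacking a set of nonempty facets is a sequence of facet stackings -/
theorem stackings_stackSet {K : Finset (Finset V)} (T : Finset (Finset V))
    (hT : ∀ F ∈ T, IsFacet K F ∧ F.Nonempty) :
    Stackings (K.image (fun G => G.image Sum.inl)) (stackSet K T) := by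
  induction T using Finset.induction_on with
  | empty =>
    have h1 : stackSet K ∅ = K.image (fun G => G.image Sum.inl) := by
      unfold stackSet
      simp
    rw [h1]
    exact Stackings.refl
  | insert F T hFT ih =>
    have ih' := ih fun F' hF' => hT F' (mem_insert_of_mem hF')
    have hF := (hT F (mem_insert_self F T)).1
    have hT' := fun F' hF' => (hT F' (mem_insert_of_mem hF')).1
    have hfac : IsFacet (stackSet K T) (F.image Sum.inl) := by
      refine ⟨mem_stackSet.2 (Or.inl ⟨F, ⟨hF.1, hFT⟩, rfl⟩), ?_⟩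
      intro σ hσ hsub
      rcases mem_stackSet.1 hσ with ⟨G, ⟨h1, h2⟩, rfl⟩ | ⟨F', hF', G, hG, rfl⟩
      · have h3 : F ⊆ G := fun v hv => by
          have := hsub (mem_image_of_mem _ hv)
          simpa using this
        rw [hF.2 G h1 h3]
      · exfalso
        have h3 : F ⊆ G := fun v hv => by
          have := hsub (mem_image_of_mem _ hv)
          simpa using this
        have h4 := hF.2 F' (hT' F' hF').1 (h3.trans hG.1)
        rw [h4] at hG
        exact hG.2 h3
    have hfresh : {(Sum.inr F : V ⊕ Finset V)} ∉ stackSet K T := by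
      intro h1
      rcases mem_stackSet.1 h1 with ⟨G, -, h2⟩ | ⟨F', hF', G, hG, h2⟩
      · exact inr_notMem_image G F (h2 ▸ mem_singleton_self _)
      · have h3 : (Sum.inr F' : V ⊕ Finset V) ∈ ({Sum.inr F} : Finset (V ⊕ Finset V)) :=
          h2 ▸ mem_insert_self _ _
        rw [mem_singleton, Sum.inr.injEq] at h3
        exact hFT (h3 ▸ hF')
    have heq : stackSet K (insert F T) = stack (stackSet K T) (F.image Sum.inl) (Sum.inr F) := by
      ext σ
      rw [mem_stack, mem_stackSet, mem_stackSet]
      constructor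
      · rintro (⟨G, ⟨h1, h2⟩, rfl⟩ | ⟨F', hF', G, hG, rfl⟩)
        · rw [mem_insert, not_or] at h2
          exact Or.inl ⟨Or.inl ⟨G, ⟨h1, h2.2⟩, rfl⟩,
            fun h3 => h2.1 (image_injective Sum.inl_injective h3)⟩
        · rcases mem_insert.1 hF' with rfl | hF'
          · refine Or.inr ⟨G.image Sum.inl, ?_, rfl⟩
            exact (image_ssubset_image Sum.inl_injective).2 hG
          · refine Or.inl ⟨Or.inr ⟨F', hF', G, hG, rfl⟩, fun h3 => ?_⟩
            exact inr_notMem_image F F' (h3 ▸ mem_insert_self _ _)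
      · rintro (⟨⟨G, ⟨h1, h2⟩, rfl⟩ | ⟨F', hF', G, hG, rfl⟩, h4⟩ | ⟨H, hH, rfl⟩)
        · refine Or.inl ⟨G, ⟨h1, ?_⟩, rfl⟩
          rw [mem_insert, not_or]
          exact ⟨fun h5 => h4 (by rw [h5]), h2⟩
        · exact Or.inr ⟨F', mem_insert_of_mem hF', G, hG, rfl⟩
        · obtain ⟨G, hG⟩ : ∃ G : Finset V, G.image Sum.inl = H :=
            ⟨_, image_pre Sum.inl_injective hH.1⟩
          subst hG
          refine Or.inr ⟨F, mem_insert_self _ _, G, ?_, rfl⟩
          exact (image_ssubset_image Sum.inl_injective).1 hH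
    rw [heq]
    exact Stackings.step _ _ _ ih' hfac ((hT F (mem_insert_self F T)).2.image _) hfresh

theorem vd_stackSet_iff {K T : Finset (Finset V)} (hK : IsCx K)
    (hT : ∀ F ∈ T, IsFacet K F ∧ F.Nonempty) :
    VertexDecomposable (stackSet K T) ↔ VertexDecomposable K :=
  (vd_stackings (cx_im Sum.inl_injective hK) (stackings_stackSet T hT)).trans
    (vd_im_iff Sum.inl_injective)

theorem vd_stackAll_iff {K : Finset (Finset V)} (hK : IsCx K) (hne : K ≠ {∅}) :
    VertexDecomposable (Pool.Agent.H933R3.stackAll K) ↔ VertexDecomposable K := by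
  classical
  rw [stackAll_eq]
  refine vd_stackSet_iff hK fun F hF => ⟨(mem_filter.1 hF).2, ?_⟩
  rw [nonempty_iff_ne_empty]
  rintro rfl
  apply hne
  have h1 := (mem_filter.1 hF).2
  ext σ
  rw [mem_singleton]
  constructor
  · exact fun hσ => h1.2 σ hσ (empty_subset σ)
  · rintro rfl
    exact h1.1

theorem shellable_of_vd {K : Finset (Finset V)} (hK : IsCx K) (h : VertexDecomposable K) :
    Shellable K := by
  obtain ⟨h1, l, h2, h3, h4⟩ := sh_of_refined hK Refined.refl h
  exact ⟨h1, l, h2, h3, h4.isShelling⟩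

end Pool.Agent.Y279.St
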